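import Pool.Agent.Y430.SS.Lf

/-!
# General linear groups over algebraic extensions
-/

set_option autoImplicit false

namespace Pool.Agent.K9h91.PA

open Matrix Pool.Agent.Y462.SS

section alg

variable {C : ∀ (G : Type) [Group G], Prop} {F K : Type} [Field F] [Field K] [Algebra F K]

theorem mem_end (hC : Closed C) (h : ∀ n : ℕ, C (GL (Fin n) F)) (V : Type) [AddCommGroup V]
    [Module F V] [Module.Finite F V] : C (Module.End F V)ˣ := by
  let b := Module.finBasis F V
  let e : Module.End F V ≃ₐ[F] Matrix _ _ F := LinearMap.toMatrixAlgEquiv b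
  refine hC.of_injective _ _ (Units.map (e : Module.End F V →* Matrix _ _ F)) ?_
    (h (Module.finrank F V))
  intro x y hxy
  apply Units.ext
  exact e.injective (congrArg Units.val hxy)

/-- restriction of scalars -/
noncomputable def resS (F L : Type) [Field F] [Field L] [Algebra F L] (n : ℕ) :
    Matrix (Fin n) (Fin n) L →* Module.End F (Fin n → L) where
  toFun M := (Matrix.mulVecLin M).restrictScalars F
  map_one' := by
    apply LinearMap.ext
    intro x
    change (1 : Matrix (Fin n) (Fin n) L) *ᵥ x = x
    exact Matrix.one_mulVec x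
  map_mul' M N := by
    apply LinearMap.ext
    intro x
    change (M * N) *ᵥ x = M *ᵥ (N *ᵥ x)
    exact (Matrix.mulVec_mulVec x M N).symm

theorem mem_finite (hC : Closed C) (h : ∀ n : ℕ, C (GL (Fin n) F)) (L : Type) [Field L]
    [Algebra F L] [FiniteDimensional F L] (n : ℕ) : C (GL (Fin n) L) := by
  refine hC.of_injective _ _ (Units.map (resS F L n)) ?_ (mem_end hC h (Fin n → L))
  intro x y hxy
  apply Units.ext
  have h1 : resS F L n (x : Matrix (Fin n) (Fin n) L) = resS F L n y := congrArg Units.val hxy
  apply Matrix.ext_of_mulVec_single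
  intro i
  exact DFunLike.congr_fun h1 (Pi.single i 1)

theorem range_mem (hC : Closed C) {G H : Type} [Group G] [Group H] (f : G →* H)
    (hf : Function.Injective f) (h : C G) : C f.range :=
  hC.of_injective _ _ (MonoidHom.ofInjective hf).symm.toMonoidHom
    (MonoidHom.ofInjective hf).symm.injective h

theorem map_inj {L M : Type} [Field L] [Field M] (i : L →+* M) (n : ℕ) :
    Function.Injective (Matrix.GeneralLinearGroup.map (n := Fin n) i) := by
  intro x y hxy
  apply Units.ext
  apply Matrix.ext
  intro a b
  apply i.injective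
  exact congrArg (fun g : GL (Fin n) M => (g : Matrix (Fin n) (Fin n) M) a b) hxy

/-- **Algebraic extensions.** -/
theorem mem_algebraic (hC : Closed C) (h : ∀ n : ℕ, C (GL (Fin n) F)) [Algebra.IsAlgebraic F K]
    (n : ℕ) : C (GL (Fin n) K) := by
  classical
  have hne : Nonempty {L : IntermediateField F K // FiniteDimensional F L} :=
    ⟨⟨⊥, inferInstance⟩⟩
  refine Pool.Agent.Y430.SS.of_directed hC (GL (Fin n) K)
    {L : IntermediateField F K // FiniteDimensional F L} (fun i j => ?_)
    (fun L => (Matrix.GeneralLinearGroup.map (n := Fin n) (algebraMap L.1 K)).range)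
    (fun L L' hL => ?_) (fun g => ?_) (fun L => ?_)
  · have := i.2
    have := j.2
    exact ⟨⟨i.1 ⊔ j.1, IntermediateField.finiteDimensional_sup _ _⟩,
      le_sup_left (α := IntermediateField F K), le_sup_right (α := IntermediateField F K)⟩
  · rintro _ ⟨x, rfl⟩
    have hL' : L.1 ≤ L'.1 := hL
    refine ⟨Matrix.GeneralLinearGroup.map (IntermediateField.inclusion hL').toRingHom x, ?_⟩
    apply Units.ext
    ext i j
    rfl
  · let S : Set K := Set.range (fun p : Fin n × Fin n => (g : Matrix (Fin n) (Fin n) K) p.1 p.2) ∪
      Set.range (fun p : Fin n × Fin n => ((g⁻¹ : GL (Fin n) K) : Matrix (Fin n) (Fin n) K) p.1 p.2)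
    have hS : S.Finite := (Set.finite_range _).union (Set.finite_range _)
    have hfin : FiniteDimensional F (IntermediateField.adjoin F S) := by
      have : Finite S := hS
      exact IntermediateField.finiteDimensional_adjoin fun x _ =>
        Algebra.IsIntegral.isIntegral x
    refine ⟨⟨IntermediateField.adjoin F S, hfin⟩, ?_⟩
    let M : Matrix (Fin n) (Fin n) (IntermediateField.adjoin F S) := fun i j =>
      ⟨(g : Matrix (Fin n) (Fin n) K) i j, IntermediateField.subset_adjoin F S
        (Or.inl ⟨(i, j), rfl⟩)⟩
    let M' : Matrix (Fin n) (Fin n) (IntermediateField.adjoin F S) := fun i j =>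
      ⟨((g⁻¹ : GL (Fin n) K) : Matrix (Fin n) (Fin n) K) i j, IntermediateField.subset_adjoin F S
        (Or.inr ⟨(i, j), rfl⟩)⟩
    have hmap : ∀ (A B : Matrix (Fin n) (Fin n) (IntermediateField.adjoin F S)),
        A.map (algebraMap _ K) = B.map (algebraMap _ K) → A = B := by
      intro A B hAB
      ext i j
      exact congrFun (congrFun hAB i) j
    have hM : M.map (algebraMap _ K) = (g : Matrix (Fin n) (Fin n) K) := rfl
    have hM' : M'.map (algebraMap _ K) =
        ((g⁻¹ : GL (Fin n) K) : Matrix (Fin n) (Fin n) K) := rfl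
    refine ⟨⟨M, M', ?_, ?_⟩, ?_⟩
    · apply hmap
      rw [Matrix.map_mul, hM, hM', Matrix.map_one _ (map_zero _) (map_one _), ← Units.val_mul,
        mul_inv_cancel]
      rfl
    · apply hmap
      rw [Matrix.map_mul, hM, hM', Matrix.map_one _ (map_zero _) (map_one _), ← Units.val_mul,
        inv_mul_cancel]
      rfl
    · apply Units.ext
      rfl
  · have := L.2
    have h1 := mem_finite hC h L.1 n
    exact range_mem hC _ (map_inj (algebraMap L.1 K) n) h1

end alg

end Pool.Agent.K9h91.PA
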