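import Pool.Agent.K9h91.PA.Crit

/-!
# Base change
-/

set_option autoImplicit false

namespace Pool.Agent.K9h91.PA

open MvPolynomial Pool.Agent.H922R2 Pool.Agent.Y110.FJ

variable {K L : Type} [Field K] [Field L] [Algebra K L]

/-- the inclusion of the polynomial rings -/
noncomputable abbrev inc (K L : Type) [Field K] [Field L] [Algebra K L] :
    MvPolynomial (Fin 2) K →+* MvPolynomial (Fin 2) L := MvPolynomial.map (algebraMap K L)

/-- base change of endomorphisms -/
noncomputable def bch (L : Type) [Field L] [Algebra K L]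
    (φ : MvPolynomial (Fin 2) K →ₐ[K] MvPolynomial (Fin 2) K) :
    MvPolynomial (Fin 2) L →ₐ[L] MvPolynomial (Fin 2) L := aeval (fun i => inc K L (φ (X i)))

theorem bch_inc (φ : MvPolynomial (Fin 2) K →ₐ[K] MvPolynomial (Fin 2) K)
    (p : MvPolynomial (Fin 2) K) : bch L φ (inc K L p) = inc K L (φ p) := by
  induction p using MvPolynomial.induction_on with
  | C a =>
    have h1 : φ (C a) = C a := φ.commutes a
    rw [h1]
    unfold bch inc
    rw [map_C, algHom_C, algebraMap_eq]
  | add p q hp hq => simp only [map_add, hp, hq]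
  | mul_X p i hp =>
    rw [map_mul, map_mul, hp, map_mul, map_mul]
    congr 1
    unfold bch inc
    rw [map_X, aeval_X]

theorem bch_comp (φ ψ : MvPolynomial (Fin 2) K →ₐ[K] MvPolynomial (Fin 2) K) :
    (bch L φ).comp (bch L ψ) = bch L (φ.comp ψ) := by
  apply MvPolynomial.algHom_ext
  intro i
  have h1 : bch L ψ (X i) = inc K L (ψ (X i)) := by
    unfold bch
    rw [aeval_X]
  have h2 : bch L (φ.comp ψ) (X i) = inc K L (φ (ψ (X i))) := by
    unfold bch
    rw [aeval_X]
    rfl
  rw [AlgHom.comp_apply, h1, h2, bch_inc]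

theorem bch_id : bch L (AlgHom.id K (MvPolynomial (Fin 2) K)) = AlgHom.id L _ := by
  apply MvPolynomial.algHom_ext
  intro i
  unfold bch inc
  rw [aeval_X, AlgHom.id_apply, AlgHom.id_apply, map_X]

/-- base change of automorphisms -/
noncomputable def bc (K L : Type) [Field K] [Field L] [Algebra K L] : GA K →* GA L :=
  MonoidHom.mk' (fun φ => AlgEquiv.ofAlgHom (bch L φ.toAlgHom) (bch L φ.symm.toAlgHom)
    (by
      rw [bch_comp]
      have : φ.toAlgHom.comp φ.symm.toAlgHom = AlgHom.id K _ := by ext x; simp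
      rw [this, bch_id])
    (by
      rw [bch_comp]
      have : φ.symm.toAlgHom.comp φ.toAlgHom = AlgHom.id K _ := by ext x; simp
      rw [this, bch_id])) (by
    intro φ ψ
    apply AlgEquiv.ext
    intro p
    change bch L (φ * ψ).toAlgHom p = ((bch L φ.toAlgHom).comp (bch L ψ.toAlgHom)) p
    rw [bch_comp]
    rfl)

theorem bc_X (φ : GA K) (i : Fin 2) : bc K L φ (X i) = inc K L (φ (X i)) := by
  change bch L φ.toAlgHom (X i) = _
  unfold bch
  rw [aeval_X]
  rfl

theorem td_inc (p : MvPolynomial (Fin 2) K) : (inc K L p).totalDegree = p.totalDegree := by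
  unfold totalDegree
  rw [MvPolynomial.support_map_of_injective _ (algebraMap K L).injective]

theorem dg_bc (φ : GA K) : dg (bc K L φ) = dg φ := by
  unfold dg
  rw [bc_X, bc_X, td_inc, td_inc]

/-- **The criterion** over a field of characteristic zero. -/
theorem plane_crit' [CharZero K] {C : ∀ (G : Type) [Group G], Prop} (hC : ClosedE C)
    {Γ : Type} [Group Γ] (ρ : Γ →* GA K)
    (h : ∀ c : ℕ, ∃ (P : Type) (_ : Group P) (f : Γ →* P), C P ∧
      ∀ γ : Γ, dg (ρ γ) ≤ c → f γ = 1 → γ = 1) : C Γ := by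
  have : CharZero (AlgebraicClosure K) := charZero_of_injective_algebraMap
    (algebraMap K (AlgebraicClosure K)).injective
  refine plane_crit (k := AlgebraicClosure K) hC ((bc K (AlgebraicClosure K)).comp ρ) fun c => ?_
  obtain ⟨P, hP, f, hCP, hf⟩ := h c
  refine ⟨P, hP, f, hCP, fun γ hγ h1 => hf γ ?_ h1⟩
  rw [← dg_bc (L := AlgebraicClosure K)]
  exact hγ

end Pool.Agent.K9h91.PA
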