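import Pool.Agent.K9h91.PA.Deg
import Pool.Agent.N24.TR.Tree

/-!
# The criterion for groups of automorphisms of the plane
-/

set_option autoImplicit false

namespace Pool.Agent.K9h91.PA

open MvPolynomial Pool.Agent.H922R2 Pool.Agent.Helper705_SA Pool.Agent.Y110.FJ Pool.Agent.N24.TR

variable {k : Type} [Field k] [CharZero k]

theorem coset_act {G : Type} [Group G] (A B : Subgroup G) (g : G) (x y : (G ⧸ A) ⊕ (G ⧸ B))
    (h : (cosetGraph A B).Adj x y) : (cosetGraph A B).Adj (g • x) (g • y) := by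
  obtain ⟨r, ⟨rfl, rfl⟩ | ⟨rfl, rfl⟩⟩ := h
  · exact ⟨g * r, Or.inl ⟨rfl, rfl⟩⟩
  · exact ⟨g * r, Or.inr ⟨rfl, rfl⟩⟩

theorem conj_bound {h x : GA k} {m : ℕ} (hx : dg (h⁻¹ * (x * h)) ≤ m) :
    dg x ≤ dg h * m * dg h⁻¹ := by
  have h1 : x = h * (h⁻¹ * (x * h)) * h⁻¹ := by group
  calc dg x = dg (h * (h⁻¹ * (x * h)) * h⁻¹) := by rw [← h1]
    _ ≤ dg (h * (h⁻¹ * (x * h))) * dg h⁻¹ := dg_mul_le _ _
    _ ≤ dg h * dg (h⁻¹ * (x * h)) * dg h⁻¹ := Nat.mul_le_mul_right _ (dg_mul_le _ _)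
    _ ≤ dg h * m * dg h⁻¹ := Nat.mul_le_mul_right _ (Nat.mul_le_mul_left _ hx)

/-- **The criterion.** Let `ρ` be a homomorphism from `Γ` to the group of automorphisms of the plane
over an algebraically closed field of characteristic zero. If for each `c` there is a homomorphism from
`Γ` to a group in `C` whose kernel contains no `γ ≠ 1` such that `ρ γ` has degree at most `c`, then
`Γ` is in `C`. -/
theorem plane_crit [IsAlgClosed k] {C : ∀ (G : Type) [Group G], Prop} (hC : ClosedE C)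
    {Γ : Type} [Group Γ] (ρ : Γ →* GA k)
    (h : ∀ c : ℕ, ∃ (P : Type) (_ : Group P) (f : Γ →* P), C P ∧
      ∀ γ : Γ, dg (ρ γ) ≤ c → f γ = 1 → γ = 1) : C Γ := by
  refine Pool.Agent.Y430.SS.of_directed hC.base Γ ℕ
    (fun i j => ⟨max i j, le_max_left _ _, le_max_right _ _⟩)
    (fun d => (GD k d).comap ρ) (fun d d' hd => Subgroup.comap_mono (GD_mono hd))
    (fun g => mem_GD (ρ g)) (fun d => ?_)
  show C ↥((GD k d).comap ρ)
  let σ : ↥((GD k d).comap ρ) →* ↥(GD k d) :=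
    (ρ.comp ((GD k d).comap ρ).subtype).codRestrict (GD k d) (fun x => x.2)
  have hσ : ∀ γ, ((σ γ : ↥(GD k d)) : GA k) = ρ γ := fun _ => rfl
  let _ : MulAction ↥((GD k d).comap ρ) ((↥(GD k d) ⧸ AA k d) ⊕ (↥(GD k d) ⧸ EE k d)) :=
    MulAction.compHom _ σ
  have hact : ∀ (γ : ↥((GD k d).comap ρ)) (x : (↥(GD k d) ⧸ AA k d) ⊕ (↥(GD k d) ⧸ EE k d)),
      γ • x = σ γ • x := fun _ _ => rfl
  refine tree_local (T := cosetGraph (AA k d) (EE k d)) hC
    (cosetGraph_isTree _ _ (isAmalgam d)) (fun γ x y hxy => ?_) fun x => ?_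
  · rw [hact, hact]
    exact coset_act _ _ _ _ _ hxy
  · obtain ⟨c, hc⟩ : ∃ c, ∀ γ : ↥((GD k d).comap ρ), γ • x = x → dg (ρ γ) ≤ c := by
      rcases x with x | x
      · induction x using QuotientGroup.induction_on with
        | H g =>
          refine ⟨dg (g : GA k) * 1 * dg (g : GA k)⁻¹, fun γ hγ => ?_⟩
          rw [hact] at hγ
          have h1 : (QuotientGroup.mk (σ γ * g) : ↥(GD k d) ⧸ AA k d) = QuotientGroup.mk g :=
            Sum.inl_injective hγ
          have h2 := QuotientGroup.eq.1 h1.symm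
          have h3 : (g : GA k)⁻¹ * (ρ γ * (g : GA k)) ∈ AG k := h2
          exact conj_bound (dg_AG h3)
      · induction x using QuotientGroup.induction_on with
        | H g =>
          refine ⟨dg (g : GA k) * (d + 1) * dg (g : GA k)⁻¹, fun γ hγ => ?_⟩
          rw [hact] at hγ
          have h1 : (QuotientGroup.mk (σ γ * g) : ↥(GD k d) ⧸ EE k d) = QuotientGroup.mk g :=
            Sum.inr_injective hγ
          have h2 := QuotientGroup.eq.1 h1.symm
          have h3 : (g : GA k)⁻¹ * (ρ γ * (g : GA k)) ∈ ED k d := h2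
          exact conj_bound (dg_ED h3)
    obtain ⟨P, hP, f, hCP, hf⟩ := h c
    refine ⟨P, hP, f.comp ((GD k d).comap ρ).subtype, hCP, fun γ hγ h1 => ?_⟩
    exact Subtype.ext (hf γ (hc γ hγ) h1)

end Pool.Agent.K9h91.PA
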