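import Pool.Agent.K9h91.PA.Words
import Pool.Agent.H922R2.K16

/-!
# Automorphisms of the plane of bounded degree

The groups generated by the affine automorphisms and the triangular automorphisms of degree at most
`d + 1` are amalgams.
-/

set_option autoImplicit false

namespace Pool.Agent.K9h91.PA

open MvPolynomial Pool.Agent.H922R2 Pool.Agent.Helper705_SA

variable {k : Type} [Field k]

/-- the degree of an automorphism -/
noncomputable def dg (φ : GA k) : ℕ := max (φ (X 0)).totalDegree (φ (X 1)).totalDegree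

theorem td_X_le (φ : GA k) (i : Fin 2) : (φ (X i)).totalDegree ≤ dg φ := by
  unfold dg
  fin_cases i
  · exact le_max_left _ _
  · exact le_max_right _ _

theorem td_ga_le (φ : GA k) (p : MvPolynomial (Fin 2) k) :
    (φ p).totalDegree ≤ p.totalDegree * dg φ := by
  rw [ga_aeval φ p, aeval_def, eval₂_eq]
  apply totalDegree_finsetSum_le
  intro t ht
  refine (totalDegree_mul _ _).trans ?_
  rw [algebraMap_eq, totalDegree_C, zero_add]
  have h1 : t 0 + t 1 ≤ p.totalDegree := by
    have h2 := le_totalDegree ht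
    rw [Finsupp.sum_fintype _ _ (fun _ => rfl), Fin.sum_univ_two] at h2
    exact h2
  have h3 : ∏ i ∈ t.support, φ (X i) ^ t i = φ (X 0) ^ t 0 * φ (X 1) ^ t 1 := by
    rw [← Fin.prod_univ_two (f := fun i => φ (X i) ^ t i)]
    apply Finset.prod_subset (Finset.subset_univ _)
    intro i _ hi
    rw [Finsupp.notMem_support_iff] at hi
    rw [hi, pow_zero]
  rw [h3]
  refine (totalDegree_mul _ _).trans ?_
  calc (φ (X 0) ^ t 0).totalDegree + (φ (X 1) ^ t 1).totalDegree
      ≤ t 0 * dg φ + t 1 * dg φ := by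
        refine add_le_add ?_ ?_
        · exact (totalDegree_pow _ _).trans (Nat.mul_le_mul_left _ (td_X_le φ 0))
        · exact (totalDegree_pow _ _).trans (Nat.mul_le_mul_left _ (td_X_le φ 1))
    _ = (t 0 + t 1) * dg φ := by ring
    _ ≤ p.totalDegree * dg φ := Nat.mul_le_mul_right _ h1

theorem dg_mul_le (φ ψ : GA k) : dg (φ * ψ) ≤ dg φ * dg ψ := by
  have h : ∀ i, ((φ * ψ) (X i)).totalDegree ≤ dg φ * dg ψ := by
    intro i
    change (φ (ψ (X i))).totalDegree ≤ _
    refine (td_ga_le φ _).trans ?_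
    rw [mul_comm]
    exact Nat.mul_le_mul_left _ (td_X_le ψ i)
  exact max_le (h 0) (h 1)

theorem dg_one : dg (1 : GA k) = 1 := by
  unfold dg
  change max (X 0 : MvPolynomial (Fin 2) k).totalDegree (X 1 : MvPolynomial (Fin 2) k).totalDegree = 1
  rw [totalDegree_X, totalDegree_X]
  rfl

theorem td_lin_le {p : MvPolynomial (Fin 2) k} (h : p ∈ Wsub k) : p.totalDegree ≤ 1 := by
  obtain ⟨a, b, c, rfl⟩ := mem_Wsub.1 h
  refine (totalDegree_add _ _).trans (max_le ?_ (by rw [totalDegree_C]; omega))
  refine (totalDegree_add _ _).trans (max_le ?_ ?_)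
  · refine (totalDegree_mul _ _).trans ?_
    rw [totalDegree_C, zero_add, totalDegree_X]
  · refine (totalDegree_mul _ _).trans ?_
    rw [totalDegree_C, zero_add, totalDegree_X]

theorem dg_AG {φ : GA k} (h : φ ∈ AG k) : dg φ ≤ 1 :=
  max_le (td_lin_le (AG_forms h).1) (td_lin_le (AG_forms h).2)

theorem td_uy (P : Polynomial k) : (uy P).totalDegree = P.natDegree := by
  have h1 := td_aeval (v := (X 1 : MvPolynomial (Fin 2) k)) (m := 1) (totalDegree_X 1) one_pos P
  rw [mul_one] at h1
  exact h1

theorem td_lin1 {b c : k} (hb : b ≠ 0) :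
    (C b * X 1 + C c : MvPolynomial (Fin 2) k).totalDegree = 1 := by
  rw [totalDegree_add_eq_left_of_totalDegree_lt, td_C_mul hb, totalDegree_X]
  rw [totalDegree_C, td_C_mul hb, totalDegree_X]
  exact one_pos

variable [CharZero k]

/-- triangular automorphisms of degree at most `d + 1` -/
noncomputable def ED (k : Type) [Field k] [CharZero k] (d : ℕ) : Subgroup (GA k) where
  carrier := {φ | φ ∈ EG k ∧ (φ (X 0)).totalDegree ≤ d + 1}
  one_mem' := by
    refine ⟨(EG k).one_mem, ?_⟩
    change (X 0 : MvPolynomial (Fin 2) k).totalDegree ≤ d + 1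
    rw [totalDegree_X]
    omega
  mul_mem' := by
    rintro φ ψ ⟨h1, h2⟩ ⟨h3, h4⟩
    refine ⟨(EG k).mul_mem h1 h3, ?_⟩
    obtain ⟨a, b, c, P, ha, hb, e0, e1⟩ := EG_forms h1
    obtain ⟨a', b', c', P', ha', hb', e0', e1'⟩ := EG_forms h3
    change (φ (ψ (X 0))).totalDegree ≤ d + 1
    rw [e0', map_add, map_mul]
    have hC : φ (C a') = C a' := φ.commutes a'
    rw [hC, gmap_uy, e1]
    refine (totalDegree_add _ _).trans (max_le ?_ ?_)
    · rw [td_C_mul ha']
      exact h2
    · have h5 := td_aeval (td_lin1 (c := c) hb) one_pos P'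
      rw [h5, mul_one, ← td_uy]
      have h6 : uy P' = ψ (X 0) - C a' * X 0 := by rw [e0']; ring
      rw [h6]
      refine (totalDegree_sub _ _).trans (max_le h4 ?_)
      rw [td_C_mul ha', totalDegree_X]
      omega
  inv_mem' := by
    rintro φ ⟨h1, h2⟩
    have h3 := (EG k).inv_mem h1
    refine ⟨h3, ?_⟩
    obtain ⟨a, b, c, P, ha, hb, e0, e1⟩ := EG_forms h1
    obtain ⟨a', b', c', P', ha', hb', e0', e1'⟩ := EG_forms h3
    have hC : φ (C a') = C a' := φ.commutes a'
    have h4 : φ (φ⁻¹ (X 0)) = X 0 := by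
      change (φ * φ⁻¹) (X 0) = X 0
      rw [mul_inv_cancel]
      rfl
    rw [e0', map_add, map_mul, hC, gmap_uy, e1] at h4
    have h5 := td_aeval (td_lin1 (c := c) hb) one_pos P'
    rw [mul_one] at h5
    have h6 : Polynomial.aeval (C b * X 1 + C c : MvPolynomial (Fin 2) k) P' =
        X 0 - C a' * φ (X 0) := eq_sub_of_add_eq' h4
    have h7 : P'.natDegree ≤ d + 1 := by
      rw [← h5, h6]
      refine (totalDegree_sub _ _).trans (max_le ?_ ?_)
      · rw [totalDegree_X]
        omega
      · rw [td_C_mul ha']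
        exact h2
    rw [e0']
    refine (totalDegree_add _ _).trans (max_le ?_ ?_)
    · rw [td_C_mul ha', totalDegree_X]
      omega
    · rw [td_uy]
      exact h7

theorem ED_le (d : ℕ) : ED k d ≤ EG k := fun _ h => h.1

theorem ED_mono {d d' : ℕ} (h : d ≤ d') : ED k d ≤ ED k d' := fun _ hx => ⟨hx.1, hx.2.trans (by omega)⟩

theorem mem_ED_of {d : ℕ} {φ : GA k} (h : φ ∈ AG k) (h' : φ ∈ EG k) : φ ∈ ED k d := by
  refine ⟨h', ?_⟩
  have := td_lin_le (AG_forms h).1
  omega

theorem dg_ED {d : ℕ} {φ : GA k} (h : φ ∈ ED k d) : dg φ ≤ d + 1 := by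
  refine max_le h.2 ?_
  obtain ⟨a, b, c, P, ha, hb, e0, e1⟩ := EG_forms h.1
  rw [e1, td_lin1 hb]
  omega

/-- automorphisms generated by affine ones and triangular ones of degree at most `d + 1` -/
noncomputable def GD (k : Type) [Field k] [CharZero k] (d : ℕ) : Subgroup (GA k) := AG k ⊔ ED k d

theorem GD_mono {d d' : ℕ} (h : d ≤ d') : GD k d ≤ GD k d' := sup_le_sup le_rfl (ED_mono h)

theorem mem_GD [IsAlgClosed k] (φ : GA k) : ∃ d, φ ∈ GD k d := by
  have h : φ ∈ TG k := by rw [jvdk]; exact Subgroup.mem_top φ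
  unfold TG at h
  rw [← Subgroup.closure_eq (AG k), ← Subgroup.closure_eq (EG k), ← Subgroup.closure_union] at h
  induction h using Subgroup.closure_induction with
  | mem x hx =>
    rcases hx with hx | hx
    · exact ⟨0, (le_sup_left : AG k ≤ GD k 0) hx⟩
    · refine ⟨(x (X 0)).totalDegree, (le_sup_right : ED k _ ≤ GD k _) ⟨hx, by omega⟩⟩
  | one => exact ⟨0, Subgroup.one_mem _⟩
  | mul x y _ _ hx hy =>
    obtain ⟨d, hd⟩ := hx
    obtain ⟨d', hd'⟩ := hy
    exact ⟨max d d', Subgroup.mul_mem _ (GD_mono (le_max_left _ _) hd)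
      (GD_mono (le_max_right _ _) hd')⟩
  | inv x _ hx =>
    obtain ⟨d, hd⟩ := hx
    exact ⟨d, Subgroup.inv_mem _ hd⟩

/-- a triangular automorphism which is not affine -/
theorem St_EG {e : GA k} (he : e ∈ EG k) (he' : e ∉ AG k) : ∃ p, 2 ≤ p ∧ St e p := by
  obtain ⟨α, β, γ, P, hα, hβ, he0, he1⟩ := EG_forms he
  have hP : 2 ≤ P.natDegree := by
    by_contra hcon
    apply he'
    apply mem_AG_of
    · rw [he0]
      have h1 : P.natDegree ≤ 1 := by omega
      rw [mem_Wsub]
      refine ⟨α, P.coeff 1, P.coeff 0, ?_⟩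
      conv_lhs => rw [Polynomial.eq_X_add_C_of_natDegree_le_one h1]
      simp [uy, algebraMap_eq, add_assoc]
    · rw [he1, mem_Wsub]
      exact ⟨0, β, γ, by simp⟩
  refine ⟨P.natDegree, hP, ?_, ?_⟩
  · rw [he0, totalDegree_add_eq_right_of_totalDegree_lt, td_uy]
    rw [td_uy, td_C_mul hα, totalDegree_X]
    omega
  · rw [he1, td_lin1 hβ]
    omega

omit [CharZero k] in
theorem St_AG {θ a : GA k} {m : ℕ} (hm : 0 < m) (hθ : St θ m) (ha : a ∈ AG k) (ha' : a ∉ EG k) :
    m ≤ dg (θ * a) := by
  obtain ⟨p, q, r, hp, h⟩ := AG_not_EG ha ha'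
  refine le_trans ?_ (td_X_le (θ * a) 1)
  change m ≤ (θ (a (X 1))).totalDegree
  have hC : ∀ (c : k), θ (C c) = C c := fun c => θ.commutes c
  rw [h, map_add, map_add, map_mul, map_mul, hC, hC, hC, add_assoc,
    totalDegree_add_eq_left_of_totalDegree_lt, td_C_mul hp, hθ.1]
  rw [td_C_mul hp, hθ.1]
  refine lt_of_le_of_lt (totalDegree_add _ _) (max_lt ?_ (by rw [totalDegree_C]; omega))
  refine lt_of_le_of_lt (totalDegree_mul _ _) ?_
  rw [totalDegree_C, zero_add]
  exact hθ.2

theorem low (d : ℕ) : ∀ (n : ℕ) (L : List (GA k)), L.length ≤ n → ∀ (θ : GA k) (m : ℕ), 0 < m →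
    St θ m → (∀ x ∈ L, x ∈ AG k ∨ x ∈ ED k d) → L.IsChain (Alt (AG k) (ED k d)) →
    (∀ a ∈ L.head?, a ∈ AG k ∧ a ∉ ED k d) → m ≤ dg (θ * L.prod) := by
  intro n
  induction n with
  | zero =>
    intro L hL θ m hm hθ _ _ _
    have : L = [] := List.length_eq_zero_iff.1 (by omega)
    subst this
    rw [List.prod_nil, mul_one, ← hθ.1]
    exact td_X_le θ 0
  | succ n ih =>
    intro L hL θ m hm hθ hx hc hh
    match L, hL, hx, hc, hh with
    | [], _, _, _, _ =>
      rw [List.prod_nil, mul_one, ← hθ.1]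
      exact td_X_le θ 0
    | [a], _, _, _, hh =>
      have h1 := hh a (by simp)
      rw [List.prod_cons, List.prod_nil, mul_one]
      exact St_AG hm hθ h1.1 (fun h => h1.2 (mem_ED_of h1.1 h))
    | a :: e :: L, hL, hx, hc, hh =>
      have h1 := hh a (by simp)
      rw [List.isChain_cons_cons] at hc
      have h2 : e ∉ AG k := fun h => hc.1.1 ⟨h1.1, h⟩
      have h3 : e ∈ ED k d := (hx e (by simp)).resolve_left h2
      obtain ⟨p, hp, h4, -⟩ := St_step h1.1 (fun h => h1.2 (mem_ED_of h1.1 h)) h3.1 h2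
      have h5 := h4 θ m hm hθ
      have h6 : θ * (a :: e :: L).prod = θ * (a * e) * L.prod := by
        simp [mul_assoc]
      rw [h6]
      have h7 : m ≤ m * p := Nat.le_mul_of_pos_right m (by omega)
      refine h7.trans (ih L ?_ _ _ (by omega) h5 (fun x hx' => hx x (by simp [hx'])) ?_ ?_)
      · simp at hL
        omega
      · exact hc.2.tail
      · intro b hb
        cases L with
        | nil => simp at hb
        | cons c L =>
          simp only [List.head?_cons, Option.mem_def, Option.some.injEq] at hb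
          subst hb
          have h8 := hc.2
          rw [List.isChain_cons_cons] at h8
          have h9 : c ∉ ED k d := fun h => h8.1.2 ⟨h3, h⟩
          exact ⟨(hx c (by simp)).resolve_right h9, h9⟩

theorem word_ne (d : ℕ) (L : List (GA k)) (hL : 2 ≤ L.length)
    (hx : ∀ x ∈ L, x ∈ AG k ∨ x ∈ ED k d) (hc : L.IsChain (Alt (AG k) (ED k d))) :
    L.prod ≠ 1 := by
  match L, hL, hx, hc with
  | x :: y :: L, _, hx, hc =>
    have hc' := hc
    rw [List.isChain_cons_cons] at hc
    have hyor := hx y (by simp)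
    have hxor := hx x (by simp)
    by_cases hxA : x ∈ AG k
    · have hyA : y ∉ AG k := fun h => hc.1.1 ⟨hxA, h⟩
      have hyE : y ∈ ED k d := hyor.resolve_left hyA
      have hxE : x ∉ ED k d := fun h => hc.1.2 ⟨h, hyE⟩
      obtain ⟨p, hp, -, h4⟩ := St_step hxA (fun h => hxE (mem_ED_of hxA h)) hyE.1 hyA
      have h5 := low d L.length L le_rfl (x * y) p (by omega) h4
        (fun z hz => hx z (by simp [hz])) hc.2.tail (by
          intro b hb
          cases L with
          | nil => simp at hb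
          | cons c L =>
            simp only [List.head?_cons, Option.mem_def, Option.some.injEq] at hb
            subst hb
            have h8 := hc.2
            rw [List.isChain_cons_cons] at h8
            have h9 : c ∉ ED k d := fun h => h8.1.2 ⟨hyE, h⟩
            exact ⟨(hx c (by simp)).resolve_right h9, h9⟩)
      intro h6
      have h7 : x * y * L.prod = (x :: y :: L).prod := by simp [mul_assoc]
      rw [h7, h6, dg_one] at h5
      omega
    · have hxE : x ∈ ED k d := hxor.resolve_left hxA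
      obtain ⟨p, hp, h4⟩ := St_EG hxE.1 hxA
      have h5 := low d (y :: L).length (y :: L) le_rfl x p (by omega) h4
        (fun z hz => hx z (List.mem_cons_of_mem _ hz)) hc'.tail (by
          intro b hb
          simp only [List.head?_cons, Option.mem_def, Option.some.injEq] at hb
          subst hb
          have h9 : y ∉ ED k d := fun h => hc.1.2 ⟨hxE, h⟩
          exact ⟨hyor.resolve_right h9, h9⟩)
      intro h6
      rw [List.prod_cons] at h6
      rw [h6, dg_one] at h5
      omega

/-- the affine automorphisms in `GD` -/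
noncomputable abbrev AA (k : Type) [Field k] [CharZero k] (d : ℕ) : Subgroup ↥(GD k d) :=
  (AG k).subgroupOf (GD k d)

/-- the triangular automorphisms in `GD` -/
noncomputable abbrev EE (k : Type) [Field k] [CharZero k] (d : ℕ) : Subgroup ↥(GD k d) :=
  (ED k d).subgroupOf (GD k d)

theorem isAmalgam (d : ℕ) : IsAmalgam (AA k d) (EE k d) := by
  apply isAmalgam_of_words
  · have h1 : (AG k ⊔ ED k d).subgroupOf (GD k d) = AA k d ⊔ EE k d :=
      Subgroup.subgroupOf_sup le_sup_left le_sup_right
    rw [← h1]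
    exact Subgroup.subgroupOf_self _
  · intro L hL hx hc h1
    refine word_ne d (L.map Subtype.val) (by simpa using hL) ?_ ?_ ?_
    · intro x hx'
      rw [List.mem_map] at hx'
      obtain ⟨y, hy, rfl⟩ := hx'
      exact hx y hy
    · rw [List.isChain_map]
      exact hc
    · have h2 := congrArg (Subgroup.subtype _) h1
      rw [map_list_prod, map_one] at h2
      exact h2

end Pool.Agent.K9h91.PA
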