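import Pool.Agent.H922R2.K12

/-!
# Invariant ideals of the polynomial ring in two variables
-/

set_option autoImplicit false

namespace Pool.Agent.K9h91.PA

open MvPolynomial Pool.Agent.H922R2

theorem exists_gcd {R : Type} [CommRing R] [IsDomain R] [UniqueFactorizationMonoid R]
    (S : Finset R) : ∃ h : R, (∀ x ∈ S, h ∣ x) ∧ ∀ d, (∀ x ∈ S, d ∣ x) → d ∣ h := by
  classical
  let _ := UniqueFactorizationMonoid.toGCDMonoid R
  induction S using Finset.induction_on with
  | empty => exact ⟨0, by simp, by simp⟩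
  | insert a S _ ih =>
    obtain ⟨h, h1, h2⟩ := ih
    refine ⟨gcd a h, fun x hx => ?_, fun d hd => ?_⟩
    · rcases Finset.mem_insert.1 hx with rfl | hx
      · exact gcd_dvd_left _ _
      · exact (gcd_dvd_right _ _).trans (h1 x hx)
    · exact dvd_gcd (hd a (Finset.mem_insert_self a S))
        (h2 d fun x hx => hd x (Finset.mem_insert_of_mem hx))

theorem exists_gcd_ideal {R : Type} [CommRing R] [IsDomain R] [UniqueFactorizationMonoid R]
    [IsNoetherianRing R] (I : Ideal R) : ∃ h : R, (∀ x ∈ I, h ∣ x) ∧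
      ∀ d, (∀ x ∈ I, d ∣ x) → d ∣ h := by
  obtain ⟨S, hS⟩ := (inferInstance : IsNoetherian R R).noetherian I
  obtain ⟨h, h1, h2⟩ := exists_gcd S
  refine ⟨h, fun x hx => ?_, fun d hd => h2 d fun x hx => hd x ?_⟩
  · have h3 : I ≤ Ideal.span {h} := by
      rw [← hS]
      change Submodule.span R (S : Set R) ≤ _
      rw [Submodule.span_le]
      intro y hy
      exact Ideal.mem_span_singleton.2 (h1 y hy)
    exact Ideal.mem_span_singleton.1 (h3 hx)
  · rw [← hS]
    exact Submodule.subset_span hx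

theorem finite_of_gcd {K : Type} [Field K] (I : Ideal (MvPolynomial (Fin 2) K)) (hI : I ≠ ⊥)
    (hg : ∀ d, (∀ x ∈ I, d ∣ x) → IsUnit d) : Module.Finite K (MvPolynomial (Fin 2) K ⧸ I) := by
  rw [Module.finite_iff_krullDimLE_zero K]
  apply Ring.KrullDimLE.mk₀
  intro Q hQ
  obtain ⟨P, hP⟩ : ∃ P : Ideal (MvPolynomial (Fin 2) K), P = Q.comap (Ideal.Quotient.mk I) := ⟨_, rfl⟩
  have hPp : P.IsPrime := by
    rw [hP]
    exact Ideal.comap_isPrime _ _
  have hIP : I ≤ P := by
    intro x hx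
    rw [hP, Ideal.mem_comap, Ideal.Quotient.eq_zero_iff_mem.2 hx]
    exact Q.zero_mem
  have hPb : P ≠ ⊥ := fun h => hI (le_bot_iff.1 (h ▸ hIP))
  have hPmax : P.IsMaximal := by
    by_contra hcon
    obtain ⟨M, hM, hPM⟩ := Ideal.exists_le_maximal P hPp.ne_top
    have hlt : P < M := lt_of_le_of_ne hPM (fun h => hcon (h ▸ hM))
    obtain ⟨p, hpP, hp⟩ := Ideal.IsPrime.exists_mem_prime_of_ne_bot hPp hPb
    have hp1 : (Ideal.span {p}).IsPrime := (Ideal.span_singleton_prime hp.ne_zero).2 hp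
    have hlt2 : Ideal.span {p} < P := by
      refine lt_of_le_of_ne ((Ideal.span_singleton_le_iff_mem P).2 hpP) fun h => ?_
      refine hp.not_isUnit (hg p fun x hx => ?_)
      have h1 := hIP hx
      rw [← h] at h1
      exact Ideal.mem_span_singleton.1 h1
    have hlt3 : (⊥ : Ideal (MvPolynomial (Fin 2) K)) < Ideal.span {p} := by
      rw [bot_lt_iff_ne_bot, Ne, Ideal.span_singleton_eq_bot]
      exact hp.ne_zero
    have hMp : M.IsPrime := hM.isPrime
    let F : Fin 4 → PrimeSpectrum (MvPolynomial (Fin 2) K) :=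
      ![⟨⊥, Ideal.isPrime_bot⟩, ⟨Ideal.span {p}, hp1⟩, ⟨P, hPp⟩, ⟨M, hMp⟩]
    have hF : StrictMono F := by
      rw [Fin.strictMono_iff_lt_succ]
      intro i
      fin_cases i
      · exact hlt3
      · exact hlt2
      · exact hlt
    have h1 := Order.LTSeries.length_le_krullDim (LTSeries.mk 3 F hF)
    have h2 : ringKrullDim (MvPolynomial (Fin 2) K) = 0 + 2 := by
      rw [MvPolynomial.ringKrullDim_of_isNoetherianRing, ringKrullDim_eq_zero_of_field]
      simp
    change ((3 : ℕ) : WithBot ℕ∞) ≤ ringKrullDim (MvPolynomial (Fin 2) K) at h1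
    rw [h2, zero_add] at h1
    have h3 : (3 : ℕ) ≤ 2 := by exact_mod_cast h1
    omega
  have h1 : Q = P.map (Ideal.Quotient.mk I) := by
    rw [hP, Ideal.map_comap_of_surjective _ Ideal.Quotient.mk_surjective]
  rw [h1]
  refine (Ideal.map_eq_top_or_isMaximal_of_surjective _ Ideal.Quotient.mk_surjective hPmax).resolve_left
    fun h => ?_
  rw [← h1] at h
  exact hQ.ne_top h

/-- An ideal is of finite codimension, or its stabilizer has a common eigenvector. -/
theorem codim_or {K : Type} [Field K] (I : Ideal (MvPolynomial (Fin 2) K)) (hI : I ≠ ⊥) :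
    Module.Finite K (MvPolynomial (Fin 2) K ⧸ I) ∨ ∃ h : MvPolynomial (Fin 2) K,
      (∀ a, h ≠ C a) ∧ ∀ φ : GA K, (∀ x ∈ I, φ x ∈ I) → (∀ x ∈ I, φ⁻¹ x ∈ I) →
        ∃ l, φ h = C l * h := by
  obtain ⟨h, h1, h2⟩ := exists_gcd_ideal I
  have h0 : h ≠ 0 := by
    rintro rfl
    apply hI
    rw [eq_bot_iff]
    intro x hx
    exact zero_dvd_iff.1 (h1 x hx)
  by_cases hu : IsUnit h
  · left
    exact finite_of_gcd I hI fun d hd => isUnit_of_dvd_unit (h2 d hd) hu
  · right
    refine ⟨h, fun a ha => ?_, fun φ hφ hφ' => ?_⟩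
    · apply hu
      rw [ha]
      have ha0 : a ≠ 0 := by
        rintro rfl
        exact h0 (by rw [ha, C_0])
      exact (Ne.isUnit ha0).map C
    · have h3 : φ h ∣ h := by
        apply h2
        intro x hx
        obtain ⟨y, hy⟩ := h1 _ (hφ' x hx)
        refine ⟨φ y, ?_⟩
        rw [← map_mul, ← hy]
        exact (φ.apply_symm_apply x).symm
      have h4 : h ∣ φ h := by
        have h5 : φ⁻¹ h ∣ h := by
          apply h2
          intro x hx
          obtain ⟨y, hy⟩ := h1 _ (hφ x hx)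
          refine ⟨φ⁻¹ y, ?_⟩
          rw [← map_mul, ← hy]
          exact (φ.symm_apply_apply x).symm
        obtain ⟨y, hy⟩ := h5
        refine ⟨φ y, ?_⟩
        have h6 : φ h = φ (φ⁻¹ h) * φ y := by rw [← map_mul, ← hy]
        rw [h6]
        congr 1
        exact φ.apply_symm_apply h
      obtain ⟨u, hu'⟩ := associated_of_dvd_dvd h4 h3
      obtain ⟨l, -, hl⟩ := (MvPolynomial.isUnit_iff_eq_C_of_isReduced).1 u.isUnit
      refine ⟨l, ?_⟩
      rw [← hu', hl, mul_comm]

end Pool.Agent.K9h91.PA
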