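import Pool.Agent.K9h91.PA.Orb
import Pool.Agent.K9h91.PA.Base

/-!
# Groups of automorphisms of the plane with finite orbits
-/

set_option autoImplicit false

namespace Pool.Agent.K9h91.PA

open MvPolynomial Matrix Pool.Agent.H922R2 Pool.Agent.Y110.FJ

theorem exists_space (K : Type) [Field K] (n : ℕ) : ∃ V : Submodule K (MvPolynomial (Fin 2) K),
    Module.Finite K V ∧ ∀ p : MvPolynomial (Fin 2) K, p.totalDegree ≤ n → p ∈ V := by
  classical
  refine ⟨_, ?_, fun p hp => mem_span_monomials hp⟩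
  exact Module.Finite.span_of_finite K (Finset.finite_toSet _)

theorem plane_fix {K : Type} [Field K] [CharZero K] {C : ∀ (G : Type) [Group G], Prop}
    (hC : ClosedE C) (hGL : ∀ n : ℕ, C (GL (Fin n) K)) {Γ : Type} [Group Γ] (ρ : Γ →* GA K)
    (hρ : Function.Injective ρ) (I : Ideal (MvPolynomial (Fin 2) K)) (hI : I ≠ ⊤)
    (hfin : Module.Finite K (MvPolynomial (Fin 2) K ⧸ I)) (hst : ∀ γ, ∀ x ∈ I, ρ γ x ∈ I) : C Γ := by
  refine plane_crit' hC ρ fun c => ?_
  obtain ⟨V, hV, hV'⟩ := exists_space K (c + 1)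
  obtain ⟨n, f, hf⟩ := sep ρ I hI hst V
  refine ⟨GL (Fin n) K, inferInstance, f, hGL n, fun γ hγ h1 => ?_⟩
  have h2 : ∀ i, ρ γ (X i) = X i := by
    intro i
    refine hf γ h1 _ (hV' _ ?_) (hV' _ ?_)
    · rw [totalDegree_X]
      omega
    · have := td_X_le (ρ γ) i
      omega
  apply hρ
  rw [map_one]
  exact ga_ext (h2 0) (h2 1)

/-- **Groups of automorphisms of the plane with finite orbits.** -/
theorem plane {K : Type} [Field K] [CharZero K] {C : ∀ (G : Type) [Group G], Prop}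
    (hC : ClosedE C) (hGL : ∀ n : ℕ, C (GL (Fin n) K)) {Γ : Type} [Group Γ] (ρ : Γ →* GA K)
    (hρ : Function.Injective ρ) (h : FinOrb ρ) : C Γ := by
  refine reduce_fix hC.base ρ h fun H I hI hfin hst => ?_
  refine plane_fix hC hGL (ρ.comp H.subtype) (hρ.comp H.subtype_injective) I hI hfin ?_
  intro γ x hx
  exact hst γ γ.2 x hx

end Pool.Agent.K9h91.PA
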