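import Pool.Agent.K9h91.PA.Semi
import Pool.Agent.K9h91.PA.Plane
import Pool.Agent.K9h91.PA.Gcd

/-!
# Groups of automorphisms of the plane with invariant closed subschemes
-/

set_option autoImplicit false

namespace Pool.Agent.K9h91.PA

open MvPolynomial Matrix Pool.Agent.H922R2 Pool.Agent.Y110.FJ Pool.Agent.Y462.SS

/-- the representation on an invariant subspace of finite dimension -/
theorem exists_rep_sub {K R Γ : Type} [Field K] [CommRing R] [Algebra K R] [Group Γ]
    (ρ : Γ →* (R ≃ₐ[K] R)) (W : Submodule K R) [Module.Finite K W]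
    (hW : ∀ γ, ∀ x ∈ W, ρ γ x ∈ W) : ∃ (n : ℕ) (f : Γ →* GL (Fin n) K),
      ∀ γ, f γ = 1 → ∀ x ∈ W, ρ γ x = x := by
  let r : Γ →* Module.End K W :=
    { toFun := fun γ => (ρ γ).toLinearMap.restrict (hW γ)
      map_one' := by
        apply LinearMap.ext
        intro x
        apply Subtype.ext
        change ρ 1 x = x
        rw [map_one]
        rfl
      map_mul' := by
        intro a b
        apply LinearMap.ext
        intro x
        apply Subtype.ext
        change ρ (a * b) x = ρ a (ρ b x)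
        rw [map_mul]
        rfl }
  let b := Module.finBasis K W
  let e : Module.End K W ≃ₐ[K] Matrix _ _ K := LinearMap.toMatrixAlgEquiv b
  refine ⟨Module.finrank K W,
    ((e : Module.End K W →* Matrix _ _ K).comp r).toHomUnits, fun γ h x hx => ?_⟩
  have h1 : e (r γ) = 1 := congrArg Units.val h
  have h2 : r γ = 1 := e.injective (by rw [h1, map_one])
  have h3 : ((r γ ⟨x, hx⟩ : W) : R) = ρ γ x := rfl
  rw [h2] at h3
  exact h3.symm

/-- a group of automorphisms of the plane of bounded degree is linear -/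
theorem bounded_linear {K : Type} [Field K] {C : ∀ (G : Type) [Group G], Prop}
    (hC : Closed C) (hGL : ∀ n : ℕ, C (GL (Fin n) K)) {Γ : Type} [Group Γ] (ρ : Γ →* GA K)
    (hρ : Function.Injective ρ) {c : ℕ} (hc : ∀ γ, dg (ρ γ) ≤ c) : C Γ := by
  obtain ⟨V, hV, hV'⟩ := exists_space K c
  obtain ⟨W, hWdef⟩ : ∃ W : Submodule K (MvPolynomial (Fin 2) K),
    W = Submodule.span K {p | ∃ (γ : Γ) (i : Fin 2), p = ρ γ (X i)} := ⟨_, rfl⟩
  have hWV : W ≤ V := by
    rw [hWdef, Submodule.span_le]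
    rintro _ ⟨γ, i, rfl⟩
    exact hV' _ ((td_X_le _ _).trans (hc γ))
  have hWf : Module.Finite K W := Submodule.finiteDimensional_of_le hWV
  have hWs : ∀ γ, ∀ x ∈ W, ρ γ x ∈ W := by
    intro γ
    have h1 : W ≤ W.comap (ρ γ).toLinearMap := by
      conv_lhs => rw [hWdef]
      rw [Submodule.span_le]
      rintro _ ⟨δ, i, rfl⟩
      change ρ γ (ρ δ (X i)) ∈ W
      rw [hWdef]
      refine Submodule.subset_span ⟨γ * δ, i, ?_⟩
      rw [map_mul]
      rfl
    exact fun x hx => h1 hx
  obtain ⟨n, f, hf⟩ := exists_rep_sub ρ W hWs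
  refine hC.of_injective _ _ f ?_ (hGL n)
  rw [injective_iff_map_eq_one]
  intro γ hγ
  have h2 : ∀ i, ρ γ (X i) = X i := by
    intro i
    refine hf γ hγ _ ?_
    rw [hWdef]
    exact Submodule.subset_span ⟨1, i, by rw [map_one]; rfl⟩
  apply hρ
  rw [map_one]
  exact ga_ext (h2 0) (h2 1)

/-- Each finitely generated subgroup of `Γ` has bounded degree or has a finite orbit on the ideals of
the polynomial ring which are neither `0` nor the whole ring. -/
def LocInv {K Γ : Type} [Field K] [Group Γ] (ρ : Γ →* GA K) : Prop :=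
  ∀ S : Set Γ, S.Finite → (∃ c, ∀ γ ∈ Subgroup.closure S, dg (ρ γ) ≤ c) ∨
    ∃ I : Ideal (MvPolynomial (Fin 2) K), I ≠ ⊥ ∧ I ≠ ⊤ ∧
      {J : Ideal (MvPolynomial (Fin 2) K) | ∃ γ ∈ Subgroup.closure S,
        J = I.map (ρ γ : MvPolynomial (Fin 2) K →+* MvPolynomial (Fin 2) K)}.Finite

/-- **Groups of automorphisms of the plane with invariant closed subschemes.** -/
theorem plane_inv {K : Type} [Field K] [CharZero K] {C : ∀ (G : Type) [Group G], Prop}
    (hC : ClosedE C) (hGL : ∀ n : ℕ, C (GL (Fin n) K)) {Γ : Type} [Group Γ] (ρ : Γ →* GA K)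
    (hρ : Function.Injective ρ) (h : LocInv ρ) : C Γ := by
  classical
  refine Pool.Agent.Y430.SS.of_directed hC.base Γ (Finset Γ) (fun i j => ?_)
    (fun s => Subgroup.closure (s : Set Γ))
    (fun s t h => Subgroup.closure_mono (by exact_mod_cast h))
    (fun g => ⟨{g}, Subgroup.subset_closure (by simp)⟩) (fun S => ?_)
  · exact ⟨i ∪ j, Finset.subset_union_left, Finset.subset_union_right⟩
  show C ↥(Subgroup.closure (S : Set Γ))
  have hρ' : Function.Injective (ρ.comp (Subgroup.closure (S : Set Γ)).subtype) :=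
    hρ.comp (Subgroup.subtype_injective _)
  rcases h S S.finite_toSet with ⟨c, hc⟩ | ⟨I, hI0, hI, horb⟩
  · exact bounded_linear hC.base hGL _ hρ' (c := c) fun γ => hc γ γ.2
  let _ : MulAction ↥(Subgroup.closure (S : Set Γ)) (Ideal (MvPolynomial (Fin 2) K)) :=
    actI (ρ.comp (Subgroup.closure (S : Set Γ)).subtype)
  have h1 : (MulAction.orbit ↥(Subgroup.closure (S : Set Γ)) I).Finite := by
    refine horb.subset ?_
    rintro _ ⟨γ, rfl⟩
    exact ⟨γ, γ.2, rfl⟩
  have h2 : (MulAction.stabilizer ↥(Subgroup.closure (S : Set Γ)) I).FiniteIndex := by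
    constructor
    rw [MulAction.index_stabilizer]
    have h3 := (Set.ncard_pos h1).2 ⟨I, MulAction.mem_orbit_self I⟩
    omega
  have hst : ∀ γ ∈ MulAction.stabilizer ↥(Subgroup.closure (S : Set Γ)) I, ∀ x ∈ I,
      ρ γ x ∈ I := by
    intro δ hδ x hx
    have h4 : I.map (ρ δ : MvPolynomial (Fin 2) K →+* MvPolynomial (Fin 2) K) = I := hδ
    have h5 := Ideal.mem_map_of_mem (ρ δ : MvPolynomial (Fin 2) K →+* MvPolynomial (Fin 2) K) hx
    rw [h4] at h5
    exact h5
  rcases codim_or I hI0 with hfin | ⟨g, hg, hg'⟩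
  · refine hC.base.finiteIndex _ _ h2 ?_
    refine plane_fix hC hGL ((ρ.comp (Subgroup.closure (S : Set Γ)).subtype).comp
      (MulAction.stabilizer ↥(Subgroup.closure (S : Set Γ)) I).subtype)
      (hρ'.comp (Subgroup.subtype_injective _)) I hI hfin ?_
    intro γ x hx
    exact hst γ.1 γ.2 x hx
  · have hfg : ∃ T : Finset ↥(Subgroup.closure (S : Set Γ)),
        Subgroup.closure (T : Set ↥(Subgroup.closure (S : Set Γ))) = ⊤ := by
      have h3 : Group.FG ↥(Subgroup.closure (S : Set Γ)) := by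
        rw [Group.fg_iff_subgroup_fg]
        exact ⟨S, rfl⟩
      exact Group.fg_def.mp h3
    obtain ⟨T, hT⟩ := hfg
    obtain ⟨m, hm⟩ := bounded_of_semi (ρ.comp (Subgroup.closure (S : Set Γ)).subtype) T hT
      (fun γ => by
        obtain ⟨N, hN, -, hN2⟩ := Subgroup.exists_pow_mem_of_index_ne_zero h2.index_ne_zero γ
        obtain ⟨l, hl⟩ := hg' (ρ ((γ ^ N : ↥(Subgroup.closure (S : Set Γ))) : Γ)) (hst _ hN2)
          (by
            intro x hx
            rw [← map_inv]
            exact hst _ (Subgroup.inv_mem _ hN2) x hx)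
        refine ⟨N, g, l, hN, hg, ?_⟩
        rw [← map_pow]
        exact hl)
    exact bounded_linear hC.base hGL _ hρ' hm

end Pool.Agent.K9h91.PA
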