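import Mathlib

/-!
# Jets: finite-dimensional representations of groups of automorphisms with an invariant ideal
-/

set_option autoImplicit false

namespace Pool.Agent.K9h91.PA

open Matrix

section rep

variable {K R Γ : Type} [Field K] [CommRing R] [Algebra K R] [Group Γ]

/-- the representation on the quotient by an invariant ideal -/
noncomputable def rep (ρ : Γ →* (R ≃ₐ[K] R)) (J : Ideal R) (hJ : ∀ γ, ∀ x ∈ J, ρ γ x ∈ J) :
    Γ →* Module.End K (R ⧸ J) where
  toFun γ := (Ideal.quotientMapₐ J (ρ γ).toAlgHom (fun x hx => hJ γ x hx)).toLinearMap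
  map_one' := by
    apply LinearMap.ext
    intro x
    obtain ⟨x, rfl⟩ := Ideal.Quotient.mk_surjective x
    change Ideal.Quotient.mk J (ρ 1 x) = _
    rw [map_one]
    rfl
  map_mul' a b := by
    apply LinearMap.ext
    intro x
    obtain ⟨x, rfl⟩ := Ideal.Quotient.mk_surjective x
    change Ideal.Quotient.mk J (ρ (a * b) x) = Ideal.Quotient.mk J (ρ a (ρ b x))
    rw [map_mul]
    rfl

theorem rep_mk (ρ : Γ →* (R ≃ₐ[K] R)) (J : Ideal R) (hJ : ∀ γ, ∀ x ∈ J, ρ γ x ∈ J) (γ : Γ) (x : R) :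
    rep ρ J hJ γ (Ideal.Quotient.mk J x) = Ideal.Quotient.mk J (ρ γ x) := rfl

theorem exists_rep (ρ : Γ →* (R ≃ₐ[K] R)) (J : Ideal R) (hJ : ∀ γ, ∀ x ∈ J, ρ γ x ∈ J)
    [Module.Finite K (R ⧸ J)] : ∃ (n : ℕ) (f : Γ →* GL (Fin n) K),
      ∀ γ, f γ = 1 → ∀ x, ρ γ x - x ∈ J := by
  let b := Module.finBasis K (R ⧸ J)
  let e : Module.End K (R ⧸ J) ≃ₐ[K] Matrix _ _ K := LinearMap.toMatrixAlgEquiv b
  refine ⟨Module.finrank K (R ⧸ J),
    ((e : Module.End K (R ⧸ J) →* Matrix _ _ K).comp (rep ρ J hJ)).toHomUnits, fun γ h x => ?_⟩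
  have h1 : e (rep ρ J hJ γ) = 1 := congrArg Units.val h
  have h2 : rep ρ J hJ γ = 1 := e.injective (by rw [h1, map_one])
  have h3 := rep_mk ρ J hJ γ x
  rw [h2] at h3
  rw [← Ideal.Quotient.eq]
  exact h3.symm

end rep

section fin

variable {K R : Type} [Field K] [CommRing R] [Algebra K R]

theorem finite_pow [Algebra.FiniteType K R] (I : Ideal R) [Module.Finite K (R ⧸ I)] (m : ℕ) :
    Module.Finite K (R ⧸ I ^ m) := by
  have h1 : Algebra.IsIntegral K (R ⧸ I ^ m) := by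
    constructor
    intro x
    obtain ⟨x, rfl⟩ := Ideal.Quotient.mk_surjective x
    obtain ⟨p, hp, h2⟩ := Algebra.IsIntegral.isIntegral (R := K) (Ideal.Quotient.mk I x)
    refine ⟨p ^ m, hp.pow m, ?_⟩
    have h3 : Polynomial.aeval x p ∈ I := by
      rw [← Ideal.Quotient.eq_zero_iff_mem]
      have h4 := Polynomial.aeval_algHom_apply (Ideal.Quotient.mkₐ K I) x p
      rw [Ideal.Quotient.mkₐ_eq_mk] at h4
      rw [← h4]
      exact h2
    have h5 : Polynomial.aeval x (p ^ m) ∈ I ^ m := by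
      rw [map_pow]
      exact Ideal.pow_mem_pow h3 m
    rw [← Ideal.Quotient.eq_zero_iff_mem] at h5
    have h4 := Polynomial.aeval_algHom_apply (Ideal.Quotient.mkₐ K (I ^ m)) x (p ^ m)
    rw [Ideal.Quotient.mkₐ_eq_mk] at h4
    rw [← h5, ← h4]
    rfl
  have h2 : Algebra.FiniteType K (R ⧸ I ^ m) :=
    Algebra.FiniteType.of_surjective (Ideal.Quotient.mkₐ K (I ^ m))
      (Ideal.Quotient.mkₐ_surjective K (I ^ m))
  exact Algebra.IsIntegral.finite

theorem exists_pow [IsDomain R] [IsNoetherianRing R] (I : Ideal R) (hI : I ≠ ⊤)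
    (V : Submodule K R) [Module.Finite K V] : ∃ m, ∀ x ∈ V, x ∈ I ^ m → x = 0 := by
  let f : ℕ →o (Submodule K V)ᵒᵈ :=
    ⟨fun m => OrderDual.toDual (((I ^ m).restrictScalars K).comap V.subtype), by
      intro a b hab
      change ((I ^ b).restrictScalars K).comap V.subtype ≤ ((I ^ a).restrictScalars K).comap V.subtype
      intro x hx
      exact Ideal.pow_le_pow_right hab hx⟩
  obtain ⟨m, hm⟩ := IsArtinian.monotone_stabilizes f
  refine ⟨m, fun x hx h => ?_⟩
  have h1 : ∀ n, x ∈ I ^ n := by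
    intro n
    rcases le_total m n with h2 | h2
    · have h3 : (⟨x, hx⟩ : V) ∈ ((I ^ n).restrictScalars K).comap V.subtype := by
        have h4 := hm n h2
        have h5 : (⟨x, hx⟩ : V) ∈ ((I ^ m).restrictScalars K).comap V.subtype := h
        have h6 : ((I ^ m).restrictScalars K).comap V.subtype =
          ((I ^ n).restrictScalars K).comap V.subtype := h4
        rw [← h6]
        exact h5
      exact h3
    · exact Ideal.pow_le_pow_right h2 h
  have h2 : x ∈ (⨅ n : ℕ, I ^ n : Ideal R) := by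
    rw [Submodule.mem_iInf]
    exact h1
  rw [Ideal.iInf_pow_eq_bot_of_isDomain I hI] at h2
  exact h2

/-- **Separation.** -/
theorem sep {Γ : Type} [Group Γ] [IsDomain R] [Algebra.FiniteType K R] (ρ : Γ →* (R ≃ₐ[K] R))
    (I : Ideal R) (hI : I ≠ ⊤) [Module.Finite K (R ⧸ I)] (hst : ∀ γ, ∀ x ∈ I, ρ γ x ∈ I)
    (V : Submodule K R) [Module.Finite K V] : ∃ (n : ℕ) (f : Γ →* GL (Fin n) K),
      ∀ γ, f γ = 1 → ∀ x ∈ V, ρ γ x ∈ V → ρ γ x = x := by
  have : IsNoetherianRing R := Algebra.FiniteType.isNoetherianRing K R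
  obtain ⟨m, hm⟩ := exists_pow I hI V
  have : Module.Finite K (R ⧸ I ^ m) := finite_pow I m
  have h1 : ∀ γ, ∀ x ∈ I ^ m, ρ γ x ∈ I ^ m := by
    intro γ x hx
    have h2 : I.map (ρ γ : R →+* R) ≤ I := by
      rw [Ideal.map_le_iff_le_comap]
      intro y hy
      exact hst γ y hy
    have h3 := Ideal.mem_map_of_mem (ρ γ : R →+* R) hx
    rw [Ideal.map_pow] at h3
    exact Ideal.pow_right_mono h2 m h3
  obtain ⟨n, f, hf⟩ := exists_rep ρ (I ^ m) h1
  refine ⟨n, f, fun γ h x hx hx' => ?_⟩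
  exact sub_eq_zero.1 (hm _ (V.sub_mem hx' hx) (hf γ h x))

end fin

end Pool.Agent.K9h91.PA
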