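import Pool.Agent.K9h91.PA.Jet
import Pool.Agent.Y430.SS.Lf

/-!
# Finite orbits on ideals
-/

set_option autoImplicit false

namespace Pool.Agent.K9h91.PA

open Pool.Agent.Y462.SS

variable {K R Γ : Type} [Field K] [CommRing R] [Algebra K R] [Group Γ]

/-- Each finitely generated subgroup of `Γ` has a finite orbit on the set of the proper ideals of `R` of
finite codimension. -/
def FinOrb (ρ : Γ →* (R ≃ₐ[K] R)) : Prop :=
  ∀ S : Set Γ, S.Finite → ∃ I : Ideal R, I ≠ ⊤ ∧ Module.Finite K (R ⧸ I) ∧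
    {J : Ideal R | ∃ γ ∈ Subgroup.closure S, J = I.map (ρ γ : R →+* R)}.Finite

/-- the action on the ideals -/
@[reducible] def actI (ρ : Γ →* (R ≃ₐ[K] R)) : MulAction Γ (Ideal R) where
  smul γ I := I.map (ρ γ : R →+* R)
  one_smul I := by
    change I.map (ρ 1 : R →+* R) = I
    rw [map_one]
    exact Ideal.map_id I
  mul_smul a b I := by
    change I.map (ρ (a * b) : R →+* R) = (I.map (ρ b : R →+* R)).map (ρ a : R →+* R)
    rw [Ideal.map_map, map_mul]
    rfl

theorem reduce_fix {C : ∀ (G : Type) [Group G], Prop} (hC : Closed C)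
    (ρ : Γ →* (R ≃ₐ[K] R)) (h : FinOrb ρ)
    (key : ∀ (H : Subgroup Γ) (I : Ideal R), I ≠ ⊤ → Module.Finite K (R ⧸ I) →
      (∀ γ ∈ H, ∀ x ∈ I, ρ γ x ∈ I) → C H) : C Γ := by
  classical
  refine Pool.Agent.Y430.SS.of_directed hC Γ (Finset Γ) (fun i j => ?_)
    (fun s => Subgroup.closure (s : Set Γ))
    (fun s t h => Subgroup.closure_mono (by exact_mod_cast h))
    (fun g => ⟨{g}, Subgroup.subset_closure (by simp)⟩) (fun S => ?_)
  · exact ⟨i ∪ j, Finset.subset_union_left, Finset.subset_union_right⟩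
  show C ↥(Subgroup.closure (S : Set Γ))
  obtain ⟨I, hI, hfin, horb⟩ := h S S.finite_toSet
  let _ : MulAction ↥(Subgroup.closure (S : Set Γ)) (Ideal R) :=
    actI (ρ.comp (Subgroup.closure (S : Set Γ)).subtype)
  have h1 : (MulAction.orbit ↥(Subgroup.closure (S : Set Γ)) I).Finite := by
    refine horb.subset ?_
    rintro _ ⟨γ, rfl⟩
    exact ⟨γ, γ.2, rfl⟩
  have h2 : (MulAction.stabilizer ↥(Subgroup.closure (S : Set Γ)) I).FiniteIndex := by
    constructor
    rw [MulAction.index_stabilizer]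
    have h3 := (Set.ncard_pos h1).2 ⟨I, MulAction.mem_orbit_self I⟩
    omega
  refine hC.finiteIndex _ _ h2 ?_
  let H := (MulAction.stabilizer ↥(Subgroup.closure (S : Set Γ)) I).map
    (Subgroup.closure (S : Set Γ)).subtype
  have h3 : C H := by
    refine key H I hI hfin ?_
    rintro γ ⟨δ, hδ, rfl⟩ x hx
    have h4 : I.map (ρ δ : R →+* R) = I := hδ
    have h5 := Ideal.mem_map_of_mem (ρ δ : R →+* R) hx
    rw [h4] at h5
    exact h5
  let ι : ↥(MulAction.stabilizer ↥(Subgroup.closure (S : Set Γ)) I) →* H :=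
    ((Subgroup.closure (S : Set Γ)).subtype.comp (Subgroup.subtype _)).codRestrict H
      (fun x => ⟨x, x.2, rfl⟩)
  refine hC.of_injective _ _ ι ?_ h3
  intro x y hxy
  apply Subtype.ext
  apply Subtype.ext
  exact congrArg (fun z : H => (z : Γ)) hxy

theorem FinOrb.comp {ρ : Γ →* (R ≃ₐ[K] R)} (h : FinOrb ρ) (H : Subgroup Γ) :
    FinOrb (ρ.comp H.subtype) := by
  intro S hS
  obtain ⟨I, hI, hfin, horb⟩ := h (Subtype.val '' S) (hS.image _)
  refine ⟨I, hI, hfin, horb.subset ?_⟩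
  rintro J ⟨γ, hγ, rfl⟩
  refine ⟨γ, ?_, rfl⟩
  have h1 : (Subgroup.closure S).map H.subtype = Subgroup.closure (Subtype.val '' S) := by
    rw [MonoidHom.map_closure]
    rfl
  rw [← h1]
  exact ⟨γ, hγ, rfl⟩

end Pool.Agent.K9h91.PA
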