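import Pool.Agent.K9h91.PA.Orb
import Pool.Agent.R779.FJ.Col
import Pool.Agent.Y529.FJ.Ext
import Pool.Agent.Y961.FJ.Perm

/-!
# Extensions by groups which act locally finitely
-/

set_option autoImplicit false

namespace Pool.Agent.K9h91.PA

open Matrix Pool.Agent.Y110.FJ

variable {K R Γ : Type} [Field K] [CommRing R] [Algebra K R] [Group Γ]

/-- the subgroup `N` acts locally finitely: the orbits of the elements of `R` under the finitely
generated subgroups of `N` span subspaces of finite dimension -/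
def LocFin (ρ : Γ →* (R ≃ₐ[K] R)) (N : Subgroup Γ) : Prop :=
  ∀ E : Set Γ, E.Finite → E ⊆ N → ∀ r : R,
    (Submodule.span K {s : R | ∃ γ ∈ Subgroup.closure E, s = ρ γ r}).FG

theorem exists_inv [Algebra.FiniteType K R] (ρ : Γ →* (R ≃ₐ[K] R)) (H : Subgroup Γ)
    (h : ∀ r : R, (Submodule.span K {s : R | ∃ γ ∈ H, s = ρ γ r}).FG) :
    ∃ V : Submodule K R, Module.Finite K V ∧
      ∀ γ ∈ H, (∀ x ∈ V, ρ γ x ∈ V → ρ γ x = x) → ρ γ = 1 := by
  classical
  obtain ⟨S, hS⟩ := (Algebra.FiniteType.out : (⊤ : Subalgebra K R).FG)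
  refine ⟨⨆ r ∈ S, Submodule.span K {s : R | ∃ γ ∈ H, s = ρ γ r}, ?_, ?_⟩
  · rw [Module.Finite.iff_fg]
    exact Submodule.fg_biSup S _ fun r _ => h r
  · intro γ hγ hfix
    have h1 : ∀ r ∈ S, ∀ δ ∈ H, ρ δ r ∈ ⨆ r ∈ S, Submodule.span K {s : R | ∃ γ ∈ H, s = ρ γ r} := by
      intro r hr δ hδ
      refine Submodule.mem_iSup_of_mem r (Submodule.mem_iSup_of_mem hr ?_)
      exact Submodule.subset_span ⟨δ, hδ, rfl⟩
    have h2 : (ρ γ).toAlgHom = AlgHom.id K R := by
      apply AlgHom.ext_of_adjoin_eq_top hS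
      intro r hr
      have h3 := h1 r hr 1 H.one_mem
      rw [map_one] at h3
      exact hfix r h3 (h1 r hr γ hγ)
    apply AlgEquiv.ext
    intro x
    exact DFunLike.congr_fun h2 x

theorem prin_fix [IsDomain R] [Algebra.FiniteType K R] {C : ∀ (G : Type) [Group G], Prop}
    (hC : ClosedE C) (hGL : ∀ n : ℕ, C (GL (Fin n) K)) (ρ : Γ →* (R ≃ₐ[K] R))
    (hρ : Function.Injective ρ) (N : Subgroup Γ) [N.Normal] (hQ : C (Γ ⧸ N)) (hN : LocFin ρ N)
    (I : Ideal R) (hI : I ≠ ⊤) (hfin : Module.Finite K (R ⧸ I))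
    (hst : ∀ γ, ∀ x ∈ I, ρ γ x ∈ I) : C Γ := by
  refine Pool.Agent.R779.FJ.t_crit Pool.Agent.Y529.FJ.t_ext
    (Pool.Agent.Y961.FJ.t_perm Pool.Agent.Y529.FJ.t_ext) C hC Γ N hQ fun g E hE hEN => ?_
  have hE' : (E ∪ (fun x => g * x * g⁻¹) '' E).Finite := hE.union (hE.image _)
  have hEN' : E ∪ (fun x => g * x * g⁻¹) '' E ⊆ N := by
    refine Set.union_subset hEN ?_
    rintro _ ⟨x, hx, rfl⟩
    exact ‹N.Normal›.conj_mem x (hEN hx) g
  obtain ⟨V, hV, hV'⟩ := exists_inv ρ _ (hN _ hE' hEN')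
  obtain ⟨n, f, hf⟩ := sep ρ I hI hst V
  refine ⟨GL (Fin n) K, inferInstance, f.comp (Subgroup.subtype _), f g, hGL n, ?_, ?_⟩
  · rw [injective_iff_map_eq_one]
    intro x hx
    apply Subtype.ext
    apply hρ
    rw [hV' x x.2 (hf x hx)]
    exact (map_one ρ).symm
  · intro x y hx hy
    change f y = f g * f x * (f g)⁻¹
    rw [hy, map_mul, map_mul, map_inv]

/-- **Extensions by groups which act locally finitely.** -/
theorem prin [IsDomain R] [Algebra.FiniteType K R] {C : ∀ (G : Type) [Group G], Prop}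
    (hC : ClosedE C) (hGL : ∀ n : ℕ, C (GL (Fin n) K)) (ρ : Γ →* (R ≃ₐ[K] R))
    (hρ : Function.Injective ρ) (h : FinOrb ρ) (N : Subgroup Γ) [N.Normal] (hQ : C (Γ ⧸ N))
    (hN : LocFin ρ N) : C Γ := by
  refine reduce_fix hC.base ρ h fun H I hI hfin hst => ?_
  have h1 : C (↥H ⧸ N.subgroupOf H) := by
    have h2 : N.subgroupOf H = ((QuotientGroup.mk' N).comp H.subtype).ker := by
      ext x
      rw [MonoidHom.mem_ker, Subgroup.mem_subgroupOf]
      exact (QuotientGroup.eq_one_iff _).symm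
    refine hC.base.of_injective _ _ (QuotientGroup.lift (N.subgroupOf H)
      ((QuotientGroup.mk' N).comp H.subtype) (fun x hx => ?_)) ?_ hQ
    · rw [h2] at hx
      exact hx
    · rw [injective_iff_map_eq_one]
      intro x
      induction x using QuotientGroup.induction_on with
      | H x =>
        intro hx
        rw [QuotientGroup.eq_one_iff, h2, MonoidHom.mem_ker]
        exact hx
  refine prin_fix hC hGL (ρ.comp H.subtype) (hρ.comp H.subtype_injective) (N.subgroupOf H) h1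
    ?_ I hI hfin ?_
  · intro E hE hEN r
    have h3 := hN (Subtype.val '' E) (hE.image _) (by
      rintro _ ⟨x, hx, rfl⟩
      exact hEN hx) r
    have h4 : {s : R | ∃ γ ∈ Subgroup.closure E, s = (ρ.comp H.subtype) γ r} =
        {s : R | ∃ γ ∈ Subgroup.closure (Subtype.val '' E), s = ρ γ r} := by
      have h5 : Subgroup.closure (Subtype.val '' E) = (Subgroup.closure E).map H.subtype := by
        rw [MonoidHom.map_closure]
        rfl
      ext s
      constructor
      · rintro ⟨γ, hγ, rfl⟩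
        exact ⟨γ, by rw [h5]; exact ⟨γ, hγ, rfl⟩, rfl⟩
      · rintro ⟨γ, hγ, rfl⟩
        rw [h5] at hγ
        obtain ⟨δ, hδ, rfl⟩ := hγ
        exact ⟨δ, hδ, rfl⟩
    rw [h4]
    exact h3
  · intro γ x hx
    exact hst γ γ.2 x hx

end Pool.Agent.K9h91.PA
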