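import Pool.Agent.K9h91.PA.Restr
import Pool.Agent.K9h91.PA.Prin
import Pool.Agent.K9h91.PA.Plane

/-!
# Towers over the plane
-/

set_option autoImplicit false

namespace Pool.Agent.K9h91.PA

open MvPolynomial Matrix Pool.Agent.Y110.FJ

section lf

variable {K R Γ : Type} [Field K] [CommRing R] [Algebra K R] [Group Γ]

/-- the elements whose orbit spans a subspace of finite dimension -/
def lfSub (ρ : Γ →* (R ≃ₐ[K] R)) (H : Subgroup Γ) : Subalgebra K R where
  carrier := {r | (Submodule.span K {s : R | ∃ γ ∈ H, s = ρ γ r}).FG}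
  mul_mem' := by
    intro a b ha hb
    have h1 : Module.Finite K ↥(Submodule.span K {s : R | ∃ γ ∈ H, s = ρ γ a} *
        Submodule.span K {s : R | ∃ γ ∈ H, s = ρ γ b}) := Module.Finite.iff_fg.2 (ha.mul hb)
    change (Submodule.span K {s : R | ∃ γ ∈ H, s = ρ γ (a * b)}).FG
    rw [← Module.Finite.iff_fg]
    refine Submodule.finiteDimensional_of_le (S₂ := Submodule.span K {s : R | ∃ γ ∈ H, s = ρ γ a} *
        Submodule.span K {s : R | ∃ γ ∈ H, s = ρ γ b}) ?_
    rw [Submodule.span_le]
    rintro _ ⟨γ, hγ, rfl⟩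
    rw [map_mul]
    exact Submodule.mul_mem_mul (Submodule.subset_span ⟨γ, hγ, rfl⟩)
      (Submodule.subset_span ⟨γ, hγ, rfl⟩)
  add_mem' := by
    intro a b ha hb
    have h1 : Module.Finite K ↥(Submodule.span K {s : R | ∃ γ ∈ H, s = ρ γ a} ⊔
        Submodule.span K {s : R | ∃ γ ∈ H, s = ρ γ b}) := Module.Finite.iff_fg.2 (ha.sup hb)
    change (Submodule.span K {s : R | ∃ γ ∈ H, s = ρ γ (a + b)}).FG
    rw [← Module.Finite.iff_fg]
    refine Submodule.finiteDimensional_of_le (S₂ := Submodule.span K {s : R | ∃ γ ∈ H, s = ρ γ a} ⊔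
        Submodule.span K {s : R | ∃ γ ∈ H, s = ρ γ b}) ?_
    rw [Submodule.span_le]
    rintro _ ⟨γ, hγ, rfl⟩
    rw [map_add]
    exact Submodule.add_mem_sup (Submodule.subset_span ⟨γ, hγ, rfl⟩)
      (Submodule.subset_span ⟨γ, hγ, rfl⟩)
  algebraMap_mem' := by
    intro r
    change (Submodule.span K {s : R | ∃ γ ∈ H, s = ρ γ (algebraMap K R r)}).FG
    have h1 : {s : R | ∃ γ ∈ H, s = ρ γ (algebraMap K R r)} = {algebraMap K R r} := by
      ext s
      constructor
      · rintro ⟨γ, -, rfl⟩
        exact (ρ γ).commutes r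
      · rintro rfl
        exact ⟨1, H.one_mem, by rw [map_one]; rfl⟩
    rw [h1]
    exact Submodule.fg_span_singleton _

theorem mem_lfSub {ρ : Γ →* (R ≃ₐ[K] R)} {H : Subgroup Γ} {r : R} :
    r ∈ lfSub ρ H ↔ (Submodule.span K {s : R | ∃ γ ∈ H, s = ρ γ r}).FG := Iff.rfl

/-- an element of an invariant subspace of finite dimension -/
theorem mem_lfSub_of {ρ : Γ →* (R ≃ₐ[K] R)} {E : Set Γ} (W : Submodule K R) [Module.Finite K W]
    (hE : ∀ e ∈ E, ∀ w ∈ W, ρ e w ∈ W ∧ (ρ e)⁻¹ w ∈ W) {r : R} (hr : r ∈ W) :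
    r ∈ lfSub ρ (Subgroup.closure E) := by
  rw [mem_lfSub, ← Module.Finite.iff_fg]
  refine Submodule.finiteDimensional_of_le (S₂ := W) ?_
  rw [Submodule.span_le]
  rintro _ ⟨γ, hγ, rfl⟩
  have h1 : ∀ w ∈ W, ρ γ w ∈ W ∧ (ρ γ)⁻¹ w ∈ W := by
    induction hγ using Subgroup.closure_induction with
    | mem x hx => exact hE x hx
    | one =>
      intro w hw
      rw [map_one, inv_one]
      exact ⟨hw, hw⟩
    | mul x y _ _ hx hy =>
      intro w hw
      rw [map_mul, _root_.mul_inv_rev]
      exact ⟨(hx _ (hy w hw).1).1, (hy _ (hx w hw).2).2⟩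
    | inv x _ hx =>
      intro w hw
      rw [map_inv, inv_inv]
      exact ⟨(hx w hw).2, (hx w hw).1⟩
  exact (h1 r hr).1

end lf

section poly

variable {K : Type} [Field K] {n : ℕ}

/-- an automorphism which fixes all variables except the first one -/
theorem fib_form (φ : MvPolynomial (Fin (n + 1)) K ≃ₐ[K] MvPolynomial (Fin (n + 1)) K)
    (h : ∀ i : Fin n, φ (X i.succ) = X i.succ) :
    ∃ (u : K) (f : MvPolynomial (Fin n) K), φ (X 0) = C u * X 0 + rename Fin.succ f := by
  let e := finSuccEquiv K n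
  have h0 : ∀ f : MvPolynomial (Fin n) K, φ (rename Fin.succ f) = rename Fin.succ f := by
    intro f
    induction f using MvPolynomial.induction_on with
    | C a =>
      rw [rename_C]
      exact φ.commutes a
    | add p q hp hq => simp only [map_add, hp, hq]
    | mul_X p i hp =>
      rw [map_mul, map_mul, hp, rename_X, h]
  have h1 : ∀ f : MvPolynomial (Fin n) K, e (rename Fin.succ f) = Polynomial.C f := by
    intro f
    induction f using MvPolynomial.induction_on with
    | C a =>
      rw [rename_C]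
      exact e.commutes a
    | add p q hp hq => simp only [map_add, hp, hq]
    | mul_X p i hp =>
      rw [map_mul, map_mul, hp, rename_X]
      change Polynomial.C p * finSuccEquiv K n (X i.succ) = _
      rw [finSuccEquiv_X_succ, Polynomial.C_mul]
  -- the automorphism in one variable
  have key : ∀ (ψ : MvPolynomial (Fin (n + 1)) K ≃ₐ[K] MvPolynomial (Fin (n + 1)) K),
      (∀ f : MvPolynomial (Fin n) K, ψ (rename Fin.succ f) = rename Fin.succ f) →
      ∀ p : Polynomial (MvPolynomial (Fin n) K), e (ψ (e.symm p)) = p.comp (e (ψ (X 0))) := by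
    intro ψ hψ p
    induction p using Polynomial.induction_on' with
    | add p q hp hq => rw [map_add, map_add, map_add, hp, hq, Polynomial.add_comp]
    | monomial m a =>
      rw [← Polynomial.C_mul_X_pow_eq_monomial, map_mul, map_pow, map_mul, map_pow, map_mul, map_pow,
        Polynomial.mul_comp, Polynomial.X_pow_comp, Polynomial.C_comp]
      have h2 : e.symm (Polynomial.C a) = rename Fin.succ a := by
        rw [AlgEquiv.symm_apply_eq]
        exact (h1 a).symm
      have h3 : e.symm Polynomial.X = X 0 := by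
        rw [AlgEquiv.symm_apply_eq]
        exact finSuccEquiv_X_zero.symm
      rw [h2, h3, hψ, h1]
  have h0' : ∀ f : MvPolynomial (Fin n) K, φ.symm (rename Fin.succ f) = rename Fin.succ f := by
    intro f
    rw [AlgEquiv.symm_apply_eq]
    exact (h0 f).symm
  have h4 : (e (φ.symm (X 0))).comp (e (φ (X 0))) = Polynomial.X := by
    rw [← key φ h0, AlgEquiv.symm_apply_apply, AlgEquiv.apply_symm_apply]
    exact finSuccEquiv_X_zero
  have h5 : (e (φ.symm (X 0))).natDegree * (e (φ (X 0))).natDegree = 1 := by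
    rw [← Polynomial.natDegree_comp, h4, Polynomial.natDegree_X]
  have h6 : (e (φ (X 0))).natDegree = 1 := Nat.eq_one_of_mul_eq_one_left h5
  have h7 : (e (φ.symm (X 0))).natDegree = 1 := Nat.eq_one_of_mul_eq_one_right h5
  obtain ⟨a, b, hab⟩ : ∃ a b, e (φ (X 0)) = Polynomial.C a * Polynomial.X + Polynomial.C b :=
    ⟨_, _, Polynomial.eq_X_add_C_of_natDegree_le_one h6.le⟩
  obtain ⟨c, d, hcd⟩ : ∃ c d, e (φ.symm (X 0)) = Polynomial.C c * Polynomial.X + Polynomial.C d :=
    ⟨_, _, Polynomial.eq_X_add_C_of_natDegree_le_one h7.le⟩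
  have h8 : c * a = 1 := by
    rw [hab, hcd] at h4
    have h9 := congrArg (fun p => Polynomial.coeff p 1) h4
    simp only [Polynomial.add_comp, Polynomial.mul_comp, Polynomial.C_comp, Polynomial.X_comp,
      Polynomial.coeff_add, Polynomial.coeff_X_one, Polynomial.coeff_C_mul] at h9
    have h10 : (Polynomial.C b : Polynomial (MvPolynomial (Fin n) K)).coeff 1 = 0 :=
      Polynomial.coeff_C_succ
    have h11 : (Polynomial.C d : Polynomial (MvPolynomial (Fin n) K)).coeff 1 = 0 :=
      Polynomial.coeff_C_succ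
    rw [h10, h11] at h9
    simpa using h9
  have h9 : IsUnit a := IsUnit.of_mul_eq_one_right c h8
  obtain ⟨u, -, hu⟩ := (MvPolynomial.isUnit_iff_eq_C_of_isReduced).1 h9
  refine ⟨u, b, ?_⟩
  apply e.injective
  rw [hab, hu, map_add, map_mul, h1]
  congr 2
  · exact (e.commutes u).symm
  · exact finSuccEquiv_X_zero.symm

end poly

section tower

variable {K Γ : Type} [Field K] [Group Γ] {n : ℕ}

/-- `Γ` preserves the subalgebras `K[X_j, ..., X_{n + 1}]`, `j ≤ n` -/
def Flag (n : ℕ) (ρ : Γ →* (MvPolynomial (Fin (n + 2)) K ≃ₐ[K] MvPolynomial (Fin (n + 2)) K)) :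
    Prop :=
  ∀ γ, ∀ j : ℕ, j ≤ n → ∀ i : Fin (n + 2), j ≤ i.val →
    ρ γ (X i) ∈ supported K {l : Fin (n + 2) | j ≤ l.val}

theorem supp_le (j : ℕ) : supported K {l : Fin (n + 3) | j + 1 ≤ l.val} ≤
    (supported K {l : Fin (n + 2) | j ≤ l.val}).map (rename Fin.succ) := by
  rw [supported_eq_adjoin_X, Algebra.adjoin_le_iff]
  rintro _ ⟨l, hl, rfl⟩
  have h0 : l ≠ 0 := by
    rintro rfl
    simp at hl
  obtain ⟨l', rfl⟩ := Fin.exists_succ_eq.2 h0
  refine ⟨X l', ?_, rename_X _ _⟩
  apply X_mem_supported.2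
  simp at hl
  exact hl

/-- the kernel of the restriction acts locally finitely -/
theorem locFin_fib (ρ : Γ →* (MvPolynomial (Fin (n + 1)) K ≃ₐ[K] MvPolynomial (Fin (n + 1)) K))
    (N : Subgroup Γ) (hN : ∀ γ ∈ N, ∀ i : Fin n, ρ γ (X i.succ) = X i.succ) : LocFin ρ N := by
  intro E hE hEN r
  have h1 : ∀ γ ∈ N, ∀ f : MvPolynomial (Fin n) K, ρ γ (rename Fin.succ f) = rename Fin.succ f := by
    intro γ hγ f
    induction f using MvPolynomial.induction_on with
    | C a =>
      rw [rename_C]
      exact (ρ γ).commutes a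
    | add p q hp hq => simp only [map_add, hp, hq]
    | mul_X p i hp =>
      rw [map_mul, map_mul, hp, rename_X, hN γ hγ]
  have h2 : ∀ b ∈ N, ∃ u : K, ∀ a ∈ N, ρ a (ρ b (X 0)) = C u * ρ a (X 0) + ρ b (X 0) - C u * X 0 := by
    intro b hb
    obtain ⟨u, f, huf⟩ := fib_form (ρ b) (hN b hb)
    refine ⟨u, fun a ha => ?_⟩
    have h3 : ρ a (C u) = C u := (ρ a).commutes u
    rw [huf, map_add, map_mul, h3, h1 a ha]
    ring
  have htop : lfSub ρ (Subgroup.closure E) = ⊤ := by
    rw [eq_top_iff, ← adjoin_range_X, Algebra.adjoin_le_iff]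
    rintro _ ⟨i, rfl⟩
    change X i ∈ lfSub ρ (Subgroup.closure E)
    refine Fin.cases ?_ (fun i => ?_) i
    · obtain ⟨T, hT⟩ : ∃ T : Set (MvPolynomial (Fin (n + 1)) K),
        T = {X 0} ∪ ((fun e => ρ e (X 0)) '' E ∪ (fun e => ρ e⁻¹ (X 0)) '' E) := ⟨_, rfl⟩
      have hTf : T.Finite := by
        rw [hT]
        exact (Set.finite_singleton _).union ((hE.image _).union (hE.image _))
      have : Module.Finite K (Submodule.span K T) := Module.Finite.span_of_finite K hTf
      have hT0 : X 0 ∈ Submodule.span K T := Submodule.subset_span (by rw [hT]; simp)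
      have hCmem : ∀ (u : K) (w : MvPolynomial (Fin (n + 1)) K), w ∈ Submodule.span K T →
          C u * w ∈ Submodule.span K T := by
        intro u w hw
        rw [← smul_eq_C_mul]
        exact Submodule.smul_mem _ _ hw
      have key : ∀ a ∈ N, ρ a (X 0) ∈ Submodule.span K T → ∀ w ∈ Submodule.span K T,
          ρ a w ∈ Submodule.span K T := by
        intro a ha h3 w hw
        induction hw using Submodule.span_induction with
        | mem x hx =>
          have h4 : ∀ b ∈ N, ρ b (X 0) ∈ Submodule.span K T →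
              ρ a (ρ b (X 0)) ∈ Submodule.span K T := by
            intro b hb hbT
            obtain ⟨u, hu⟩ := h2 b hb
            rw [hu a ha]
            exact Submodule.sub_mem _ (Submodule.add_mem _ (hCmem u _ h3) hbT) (hCmem u _ hT0)
          have hx' := hx
          rw [hT] at hx'
          rcases hx' with hx' | ⟨b, hb, hx'⟩ | ⟨b, hb, hx'⟩
          · rw [Set.mem_singleton_iff.1 hx']
            exact h3
          · rw [← hx']
            refine h4 b (hEN hb) ?_
            exact Submodule.subset_span (by rw [hT]; exact Or.inr (Or.inl ⟨b, hb, rfl⟩))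
          · rw [← hx']
            refine h4 b⁻¹ (N.inv_mem (hEN hb)) ?_
            exact Submodule.subset_span (by rw [hT]; exact Or.inr (Or.inr ⟨b, hb, rfl⟩))
        | zero =>
          rw [map_zero]
          exact Submodule.zero_mem _
        | add x y _ _ hx hy =>
          rw [map_add]
          exact Submodule.add_mem _ hx hy
        | smul c x _ hx =>
          rw [map_smul]
          exact Submodule.smul_mem _ _ hx
      refine mem_lfSub_of (Submodule.span K T) (fun e he w hw => ⟨?_, ?_⟩) hT0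
      · refine key e (hEN he) ?_ w hw
        exact Submodule.subset_span (by rw [hT]; exact Or.inr (Or.inl ⟨e, he, rfl⟩))
      · rw [← map_inv]
        refine key e⁻¹ (N.inv_mem (hEN he)) ?_ w hw
        exact Submodule.subset_span (by rw [hT]; exact Or.inr (Or.inr ⟨e, he, rfl⟩))
    · have : Module.Finite K (Submodule.span K {(X i.succ : MvPolynomial (Fin (n + 1)) K)}) :=
        Module.Finite.span_of_finite K (Set.finite_singleton _)
      have h3 : ∀ γ ∈ N, ∀ w ∈ Submodule.span K {(X i.succ : MvPolynomial (Fin (n + 1)) K)},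
          ρ γ w = w := by
        intro γ hγ w hw
        obtain ⟨c, rfl⟩ := Submodule.mem_span_singleton.1 hw
        rw [map_smul, hN γ hγ]
      refine mem_lfSub_of _ (fun e he w hw => ⟨?_, ?_⟩) (Submodule.mem_span_singleton_self _)
      · rw [h3 e (hEN he) w hw]
        exact hw
      · rw [← map_inv, h3 _ (N.inv_mem (hEN he)) w hw]
        exact hw
  have h3 : r ∈ lfSub ρ (Subgroup.closure E) := by
    rw [htop]
    exact Algebra.mem_top
  exact h3

/-- **Towers over the plane.** -/
theorem tower {K : Type} [Field K] [CharZero K] {C : ∀ (G : Type) [Group G], Prop}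
    (hC : ClosedE C) (hGL : ∀ n : ℕ, C (GL (Fin n) K)) (n : ℕ) :
    ∀ (Γ : Type) [Group Γ]
      (ρ : Γ →* (MvPolynomial (Fin (n + 2)) K ≃ₐ[K] MvPolynomial (Fin (n + 2)) K)),
      Function.Injective ρ → Flag n ρ → FinOrb ρ → C Γ := by
  induction n with
  | zero =>
    intro Γ _ ρ hρ _ h
    exact plane hC hGL ρ hρ h
  | succ n ih =>
    intro Γ _ ρ hρ hflag h
    let ι : MvPolynomial (Fin (n + 2)) K →ₐ[K] MvPolynomial (Fin (n + 3)) K := rename Fin.succ
    have hι : Function.Injective ι := rename_injective _ (Fin.succ_injective _)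
    have h1 : ∀ γ a, ∃ b, ρ γ (ι a) = ι b := by
      intro γ a
      have h2 : ρ γ (ι a) ∈ ι.range := by
        induction a using MvPolynomial.induction_on with
        | C a =>
          change ρ γ (rename Fin.succ (MvPolynomial.C a)) ∈ ι.range
          rw [rename_C]
          have h3 : ρ γ (MvPolynomial.C a) = MvPolynomial.C a := (ρ γ).commutes a
          rw [h3]
          exact ⟨MvPolynomial.C a, rename_C _ _⟩
        | add p q hp hq =>
          rw [map_add, map_add]
          exact Subalgebra.add_mem _ hp hq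
        | mul_X p i hp =>
          rw [map_mul, map_mul]
          refine Subalgebra.mul_mem _ hp ?_
          have h3 : ι (X i) = X i.succ := rename_X _ _
          rw [h3]
          have h4 := hflag γ 1 (by omega) i.succ (by simp)
          obtain ⟨q, -, hq⟩ := supp_le 0 h4
          exact ⟨q, hq⟩
      obtain ⟨b, hb⟩ := h2
      exact ⟨b, hb.symm⟩
    obtain ⟨σ, hσ⟩ := exists_restr ρ ι hι h1
    have hflag' : Flag n (QuotientGroup.kerLift σ) := by
      intro γ j hj i hi
      induction γ using QuotientGroup.induction_on with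
      | H γ =>
        change σ γ (X i) ∈ _
        have h4 := hflag γ (j + 1) (by omega) i.succ (by simpa using hi)
        obtain ⟨q, hq, hq2⟩ := supp_le j h4
        have h5 : ι (σ γ (X i)) = ι q := by
          rw [hσ]
          have h3 : ι (X i) = X i.succ := rename_X _ _
          rw [h3]
          exact hq2.symm
        rw [hι h5]
        exact hq
    have h2 := ih (Γ ⧸ σ.ker) (QuotientGroup.kerLift σ) (QuotientGroup.kerLift_injective σ) hflag'
      (FinOrb.kerLift (h.restr ι hσ))
    refine prin hC hGL ρ hρ h σ.ker h2 (locFin_fib ρ σ.ker ?_)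
    intro γ hγ i
    have h3 : ι (X i) = X i.succ := rename_X _ _
    rw [← h3, ← hσ, MonoidHom.mem_ker.1 hγ]
    rfl

end tower

end Pool.Agent.K9h91.PA
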