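import Pool.Agent.K9h91.PA.Inv
import Pool.Agent.K9h91.PA.Tower

/-!
# Algebras over the plane
-/

set_option autoImplicit false

namespace Pool.Agent.K9h91.PA

open MvPolynomial Matrix Pool.Agent.Y110.FJ Pool.Agent.Y462.SS

/-- `Γ` acts on `R` and preserves the image of `ι`. Each finitely generated subgroup of `Γ` acts locally
finitely, or it has a finite orbit on the set of the proper ideals `I` of `R` which are of finite
codimension or, if `ι` is surjective, different from `0`. -/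
def Good {K R Γ : Type} [Field K] [CommRing R] [Algebra K R] [Group Γ]
    (ι : MvPolynomial (Fin 2) K →ₐ[K] R) (ρ : Γ →* (R ≃ₐ[K] R)) : Prop :=
  ∀ S : Set Γ, S.Finite →
    (∀ r : R, (Submodule.span K {s : R | ∃ γ ∈ Subgroup.closure S, s = ρ γ r}).FG) ∨
    ∃ I : Ideal R, I ≠ ⊤ ∧ (Module.Finite K (R ⧸ I) ∨ (Function.Surjective ι ∧ I ≠ ⊥)) ∧
      {J : Ideal R | ∃ γ ∈ Subgroup.closure S, J = I.map (ρ γ : R →+* R)}.Finite

section ov

variable {K R Γ : Type} [Field K] [CommRing R] [Algebra K R] [Group Γ]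

/-- groups which act locally finitely are linear -/
theorem locFin_linear [Algebra.FiniteType K R] {C : ∀ (G : Type) [Group G], Prop}
    (hC : Closed C) (hGL : ∀ n : ℕ, C (GL (Fin n) K)) (ρ : Γ →* (R ≃ₐ[K] R))
    (hρ : Function.Injective ρ)
    (h : ∀ r : R, (Submodule.span K {s : R | ∃ γ : Γ, s = ρ γ r}).FG) : C Γ := by
  classical
  obtain ⟨S, hS⟩ := (Algebra.FiniteType.out : (⊤ : Subalgebra K R).FG)
  obtain ⟨W, hWdef⟩ : ∃ W : Submodule K R,
    W = Submodule.span K {p | ∃ r ∈ S, ∃ γ : Γ, p = ρ γ r} := ⟨_, rfl⟩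
  have hWf : Module.Finite K W := by
    have h1 : W ≤ ⨆ r ∈ S, Submodule.span K {s : R | ∃ γ : Γ, s = ρ γ r} := by
      rw [hWdef, Submodule.span_le]
      rintro _ ⟨r, hr, γ, rfl⟩
      refine Submodule.mem_iSup_of_mem r (Submodule.mem_iSup_of_mem hr ?_)
      exact Submodule.subset_span ⟨γ, rfl⟩
    have h2 : Module.Finite K ↥(⨆ r ∈ S, Submodule.span K {s : R | ∃ γ : Γ, s = ρ γ r}) := by
      rw [Module.Finite.iff_fg]
      exact Submodule.fg_biSup S _ fun r _ => h r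
    exact Submodule.finiteDimensional_of_le h1
  have hWs : ∀ γ, ∀ x ∈ W, ρ γ x ∈ W := by
    intro γ
    have h1 : W ≤ W.comap (ρ γ).toLinearMap := by
      conv_lhs => rw [hWdef]
      rw [Submodule.span_le]
      rintro _ ⟨r, hr, δ, rfl⟩
      change ρ γ (ρ δ r) ∈ W
      rw [hWdef]
      refine Submodule.subset_span ⟨r, hr, γ * δ, ?_⟩
      rw [map_mul]
      rfl
    exact fun x hx => h1 hx
  obtain ⟨n, f, hf⟩ := exists_rep_sub ρ W hWs
  refine hC.of_injective _ _ f ?_ (hGL n)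
  rw [injective_iff_map_eq_one]
  intro γ hγ
  apply hρ
  rw [map_one]
  have h2 : (ρ γ).toAlgHom = AlgHom.id K R := by
    apply AlgHom.ext_of_adjoin_eq_top hS
    intro r hr
    refine hf γ hγ _ ?_
    rw [hWdef]
    exact Submodule.subset_span ⟨r, hr, 1, by rw [map_one]; rfl⟩
  apply AlgEquiv.ext
  intro x
  exact DFunLike.congr_fun h2 x

theorem LocFin.comp {ρ : Γ →* (R ≃ₐ[K] R)} {N : Subgroup Γ} (h : LocFin ρ N) (H : Subgroup Γ) :
    LocFin (ρ.comp H.subtype) (N.subgroupOf H) := by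
  intro E hE hEN r
  have h3 := h (Subtype.val '' E) (hE.image _) (by
    rintro _ ⟨x, hx, rfl⟩
    exact hEN hx) r
  have h4 : {s : R | ∃ γ ∈ Subgroup.closure E, s = (ρ.comp H.subtype) γ r} =
      {s : R | ∃ γ ∈ Subgroup.closure (Subtype.val '' E), s = ρ γ r} := by
    have h5 : Subgroup.closure (Subtype.val '' E) = (Subgroup.closure E).map H.subtype := by
      rw [MonoidHom.map_closure]
      rfl
    ext s
    constructor
    · rintro ⟨γ, hγ, rfl⟩
      exact ⟨γ, by rw [h5]; exact ⟨γ, hγ, rfl⟩, rfl⟩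
    · rintro ⟨γ, hγ, rfl⟩
      rw [h5] at hγ
      obtain ⟨δ, hδ, rfl⟩ := hγ
      exact ⟨δ, hδ, rfl⟩
  rw [h4]
  exact h3

/-- the subgroup which fixes the image of `ι` -/
def fixer (ι : MvPolynomial (Fin 2) K →ₐ[K] R) (ρ : Γ →* (R ≃ₐ[K] R)) : Subgroup Γ where
  carrier := {γ | ∀ a, ρ γ (ι a) = ι a}
  one_mem' := by
    intro a
    rw [map_one]
    rfl
  mul_mem' := by
    intro γ δ hγ hδ a
    rw [map_mul]
    change ρ γ (ρ δ (ι a)) = ι a
    rw [hδ, hγ]
  inv_mem' := by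
    intro γ hγ a
    rw [map_inv]
    change (ρ γ).symm (ι a) = ι a
    rw [AlgEquiv.symm_apply_eq, hγ]

theorem over_fix [CharZero K] [IsDomain R] [Algebra.FiniteType K R]
    {C : ∀ (G : Type) [Group G], Prop} (hC : ClosedE C) (hGL : ∀ n : ℕ, C (GL (Fin n) K))
    (ι : MvPolynomial (Fin 2) K →ₐ[K] R) (hι : Function.Injective ι) (ρ : Γ →* (R ≃ₐ[K] R))
    (hρ : Function.Injective ρ) (hinv : ∀ γ a, ∃ b, ρ γ (ι a) = ι b)
    (hN : LocFin ρ (fixer ι ρ)) (I : Ideal R) (hI : I ≠ ⊤) (hfin : Module.Finite K (R ⧸ I))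
    (hst : ∀ γ, ∀ x ∈ I, ρ γ x ∈ I) : C Γ := by
  obtain ⟨σ, hσ⟩ := exists_restr ρ ι hι hinv
  have hker : σ.ker = fixer ι ρ := by
    ext γ
    rw [MonoidHom.mem_ker]
    constructor
    · intro h a
      rw [← hσ, h]
      rfl
    · intro h
      apply AlgEquiv.ext
      intro a
      apply hι
      rw [hσ]
      exact h a
  have h1 : I.comap ι ≠ ⊤ := by
    intro h1
    apply hI
    rw [Ideal.eq_top_iff_one] at h1 ⊢
    have h2 : ι 1 ∈ I := h1
    rwa [map_one] at h2
  have h2 : Module.Finite K (MvPolynomial (Fin 2) K ⧸ I.comap ι) := by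
    let j : (MvPolynomial (Fin 2) K ⧸ I.comap ι) →ₐ[K] (R ⧸ I) := Ideal.quotientMapₐ I ι le_rfl
    exact Module.Finite.of_injective j.toLinearMap (Ideal.quotientMap_injective)
  have h3 : C (Γ ⧸ σ.ker) := by
    refine plane_fix hC hGL (QuotientGroup.kerLift σ) (QuotientGroup.kerLift_injective σ)
      (I.comap ι) h1 h2 ?_
    intro γ x hx
    induction γ using QuotientGroup.induction_on with
    | H γ =>
      change ι (σ γ x) ∈ I
      rw [hσ]
      exact hst γ _ hx
  refine prin_fix hC hGL ρ hρ σ.ker h3 ?_ I hI hfin hst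
  rw [hker]
  exact hN

/-- **Algebras over the plane.** -/
theorem over_plane [CharZero K] [IsDomain R] [Algebra.FiniteType K R]
    {C : ∀ (G : Type) [Group G], Prop} (hC : ClosedE C) (hGL : ∀ n : ℕ, C (GL (Fin n) K))
    (ι : MvPolynomial (Fin 2) K →ₐ[K] R) (hι : Function.Injective ι) (ρ : Γ →* (R ≃ₐ[K] R))
    (hρ : Function.Injective ρ) (hinv : ∀ γ a, ∃ b, ρ γ (ι a) = ι b)
    (hN : LocFin ρ (fixer ι ρ)) (h : Good ι ρ) : C Γ := by
  classical
  refine Pool.Agent.Y430.SS.of_directed hC.base Γ (Finset Γ) (fun i j => ?_)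
    (fun s => Subgroup.closure (s : Set Γ))
    (fun s t h => Subgroup.closure_mono (by exact_mod_cast h))
    (fun g => ⟨{g}, Subgroup.subset_closure (by simp)⟩) (fun S => ?_)
  · exact ⟨i ∪ j, Finset.subset_union_left, Finset.subset_union_right⟩
  show C ↥(Subgroup.closure (S : Set Γ))
  obtain ⟨Δ, hΔ⟩ : ∃ Δ : Subgroup Γ, Δ = Subgroup.closure (S : Set Γ) := ⟨_, rfl⟩
  have hS := h S S.finite_toSet
  rw [← hΔ] at hS ⊢
  have hρ' : Function.Injective (ρ.comp Δ.subtype) := hρ.comp (Subgroup.subtype_injective _)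
  rcases hS with hS | ⟨I, hI, hcase, horb⟩
  · refine locFin_linear hC.base hGL (ρ.comp Δ.subtype) hρ' fun r => ?_
    have h1 : {s : R | ∃ γ : Δ, s = (ρ.comp Δ.subtype) γ r} = {s : R | ∃ γ ∈ Δ, s = ρ γ r} := by
      ext s
      constructor
      · rintro ⟨γ, rfl⟩
        exact ⟨γ, γ.2, rfl⟩
      · rintro ⟨γ, hγ, rfl⟩
        exact ⟨⟨γ, hγ⟩, rfl⟩
    rw [h1]
    exact hS r
  let _ : MulAction ↥Δ (Ideal R) := actI (ρ.comp Δ.subtype)
  have h1 : (MulAction.orbit ↥Δ I).Finite := by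
    refine horb.subset ?_
    rintro _ ⟨γ, rfl⟩
    exact ⟨γ, γ.2, rfl⟩
  rcases hcase with hfin | ⟨hsurj, hI0⟩
  · have h2 : (MulAction.stabilizer ↥Δ I).FiniteIndex := by
      constructor
      rw [MulAction.index_stabilizer]
      have h3 := (Set.ncard_pos h1).2 ⟨I, MulAction.mem_orbit_self I⟩
      omega
    refine hC.base.finiteIndex _ _ h2 ?_
    obtain ⟨H, hH⟩ : ∃ H : Subgroup ↥Δ, H = MulAction.stabilizer ↥Δ I := ⟨_, rfl⟩
    rw [← hH]
    have h3 : (fixer ι ρ).subgroupOf Δ = fixer ι (ρ.comp Δ.subtype) := rfl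
    have h4 : (fixer ι (ρ.comp Δ.subtype)).subgroupOf H =
      fixer ι ((ρ.comp Δ.subtype).comp H.subtype) := rfl
    have hN' := hN.comp Δ
    rw [h3] at hN'
    have hN'' := hN'.comp H
    rw [h4] at hN''
    refine over_fix hC hGL ι hι ((ρ.comp Δ.subtype).comp H.subtype)
      (hρ'.comp (Subgroup.subtype_injective _)) (fun γ a => hinv γ a) hN'' I hI hfin ?_
    intro γ x hx
    have h5 : (γ : Δ) ∈ MulAction.stabilizer ↥Δ I := hH ▸ γ.2
    have h6 : I.map (ρ (γ : Δ) : R →+* R) = I := h5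
    have h7 := Ideal.mem_map_of_mem (ρ (γ : Δ) : R →+* R) hx
    rw [h6] at h7
    exact h7
  · obtain ⟨σ, hσ⟩ := exists_restr (ρ.comp Δ.subtype) ι hι (fun γ a => hinv γ a)
    have hσi : Function.Injective σ := by
      rw [injective_iff_map_eq_one]
      intro γ hγ
      apply hρ'
      rw [map_one]
      apply AlgEquiv.ext
      intro x
      obtain ⟨a, rfl⟩ := hsurj x
      rw [← hσ, hγ]
      rfl
    refine plane_inv hC hGL σ hσi fun T _ => Or.inr ⟨I.comap ι, ?_, ?_, ?_⟩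
    · intro h2
      apply hI0
      rw [eq_bot_iff]
      intro x hx
      obtain ⟨a, rfl⟩ := hsurj x
      have h3 : a ∈ I.comap ι := hx
      rw [h2] at h3
      have h4 : a = 0 := h3
      rw [h4, map_zero]
      exact Ideal.zero_mem _
    · intro h1
      apply hI
      rw [Ideal.eq_top_iff_one] at h1 ⊢
      have h2 : ι 1 ∈ I := h1
      rwa [map_one] at h2
    · refine (h1.image (fun J : Ideal R => J.comap ι)).subset ?_
      rintro _ ⟨γ, -, rfl⟩
      refine ⟨I.map (ρ γ : R →+* R), ⟨γ, rfl⟩, ?_⟩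
      have h2 : ∀ (x : R), x ∈ I.map (ρ γ : R →+* R) ↔ (ρ γ).symm x ∈ I := by
        intro x
        rw [Ideal.mem_map_iff_of_surjective (I := I) (ρ γ : R →+* R) (ρ γ).surjective (y := x)]
        constructor
        · rintro ⟨y, hy, rfl⟩
          have h3 : (ρ γ).symm ((ρ γ : R →+* R) y) = y := (ρ γ).symm_apply_apply y
          rw [h3]
          exact hy
        · intro hx
          exact ⟨_, hx, (ρ γ).apply_symm_apply x⟩
      ext x
      rw [Ideal.mem_map_iff_of_surjective (I := I.comap ι)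
        (σ γ : MvPolynomial (Fin 2) K →+* MvPolynomial (Fin 2) K) (σ γ).surjective (y := x)]
      change ι x ∈ I.map (ρ γ : R →+* R) ↔ _
      rw [h2]
      have h4 : (ρ γ).symm (ι x) = ι ((σ γ).symm x) := by
        have h5 : ρ (γ : Γ) (ι ((σ γ).symm x)) = ι (σ γ ((σ γ).symm x)) := (hσ γ _).symm
        rw [AlgEquiv.symm_apply_eq, h5, AlgEquiv.apply_symm_apply]
      rw [h4]
      constructor
      · intro hx
        exact ⟨_, hx, (σ γ).apply_symm_apply x⟩
      · rintro ⟨y, hy, rfl⟩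
        have h3 : (σ γ).symm ((σ γ : MvPolynomial (Fin 2) K →+* MvPolynomial (Fin 2) K) y) = y :=
          (σ γ).symm_apply_apply y
        rw [h3]
        exact hy

end ov

end Pool.Agent.K9h91.PA
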