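import Pool.Agent.K9h91.PA.Orb

/-!
# Restriction of an action to an invariant subalgebra
-/

set_option autoImplicit false

namespace Pool.Agent.K9h91.PA

variable {K A R Γ : Type} [Field K] [CommRing A] [Algebra K A] [CommRing R] [Algebra K R] [Group Γ]

/-- restriction of the action to a subalgebra -/
theorem exists_restr (ρ : Γ →* (R ≃ₐ[K] R)) (ι : A →ₐ[K] R) (hι : Function.Injective ι)
    (h : ∀ γ a, ∃ b, ρ γ (ι a) = ι b) :
    ∃ σ : Γ →* (A ≃ₐ[K] A), ∀ γ a, ι (σ γ a) = ρ γ (ι a) := by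
  choose f hf using h
  let g : Γ →* (A →ₐ[K] A) :=
    { toFun := fun γ =>
        { toFun := f γ
          map_one' := hι (by rw [← hf, map_one, map_one])
          map_mul' := fun a b => hι (by rw [← hf, map_mul, map_mul, map_mul, hf, hf])
          map_zero' := hι (by rw [← hf, map_zero, map_zero])
          map_add' := fun a b => hι (by rw [← hf, map_add, map_add, map_add, hf, hf])
          commutes' := fun r => hι (by rw [← hf, AlgHom.commutes, AlgEquiv.commutes]) }
      map_one' := by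
        apply AlgHom.ext
        intro a
        apply hι
        change ι (f 1 a) = ι a
        rw [← hf, map_one]
        rfl
      map_mul' := by
        intro γ δ
        apply AlgHom.ext
        intro a
        apply hι
        change ι (f (γ * δ) a) = ι (f γ (f δ a))
        rw [← hf, ← hf, ← hf, map_mul]
        rfl }
  refine ⟨(AlgEquiv.algHomUnitsEquiv K A).toMonoidHom.comp g.toHomUnits, fun γ a => ?_⟩
  exact (hf γ a).symm

theorem FinOrb.restr {ρ : Γ →* (R ≃ₐ[K] R)} (h : FinOrb ρ) (ι : A →ₐ[K] R)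
    {σ : Γ →* (A ≃ₐ[K] A)} (hσ : ∀ γ a, ι (σ γ a) = ρ γ (ι a)) : FinOrb σ := by
  intro S hS
  obtain ⟨I, hI, hfin, horb⟩ := h S hS
  refine ⟨I.comap ι, ?_, ?_, ?_⟩
  · intro h1
    apply hI
    rw [Ideal.eq_top_iff_one] at h1 ⊢
    have h2 : ι 1 ∈ I := h1
    rwa [map_one] at h2
  · let j : (A ⧸ I.comap ι) →ₐ[K] (R ⧸ I) := Ideal.quotientMapₐ I ι le_rfl
    exact Module.Finite.of_injective j.toLinearMap (Ideal.quotientMap_injective)
  · refine (horb.image (fun J : Ideal R => J.comap ι)).subset ?_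
    rintro _ ⟨γ, hγ, rfl⟩
    refine ⟨I.map (ρ γ : R →+* R), ⟨γ, hγ, rfl⟩, ?_⟩
    have h1 : ∀ (x : R), x ∈ I.map (ρ γ : R →+* R) ↔ (ρ γ).symm x ∈ I := by
      intro x
      have h2 := Ideal.mem_map_iff_of_surjective (I := I) (ρ γ : R →+* R) (ρ γ).surjective (y := x)
      rw [h2]
      constructor
      · rintro ⟨y, hy, rfl⟩
        have h3 : (ρ γ).symm ((ρ γ : R →+* R) y) = y := (ρ γ).symm_apply_apply y
        rw [h3]
        exact hy
      · intro hx
        exact ⟨_, hx, (ρ γ).apply_symm_apply x⟩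
    have h1' : ∀ (x : A), x ∈ (I.comap ι).map (σ γ : A →+* A) ↔ ι ((σ γ).symm x) ∈ I := by
      intro x
      have h2 := Ideal.mem_map_iff_of_surjective (I := I.comap ι) (σ γ : A →+* A)
        (σ γ).surjective (y := x)
      rw [h2]
      constructor
      · rintro ⟨y, hy, rfl⟩
        have h3 : (σ γ).symm ((σ γ : A →+* A) y) = y := (σ γ).symm_apply_apply y
        rw [h3]
        exact hy
      · intro hx
        exact ⟨_, hx, (σ γ).apply_symm_apply x⟩
    ext x
    change ι x ∈ I.map (ρ γ : R →+* R) ↔ x ∈ (I.comap ι).map (σ γ : A →+* A)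
    rw [h1, h1']
    have h4 : (ρ γ).symm (ι x) = ι ((σ γ).symm x) := by
      rw [AlgEquiv.symm_apply_eq, ← hσ, AlgEquiv.apply_symm_apply]
    rw [h4]

theorem FinOrb.kerLift {ρ : Γ →* (R ≃ₐ[K] R)} (h : FinOrb ρ) :
    FinOrb (QuotientGroup.kerLift ρ) := by
  intro S hS
  obtain ⟨I, hI, hfin, horb⟩ := h (Quotient.out '' S) (hS.image _)
  refine ⟨I, hI, hfin, horb.subset ?_⟩
  rintro J ⟨γ, hγ, rfl⟩
  have h1 : (Subgroup.closure (Quotient.out '' S)).map (QuotientGroup.mk' ρ.ker) =
      Subgroup.closure S := by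
    rw [MonoidHom.map_closure, Set.image_image]
    congr 1
    ext x
    constructor
    · rintro ⟨y, hy, rfl⟩
      have h2 : (QuotientGroup.mk' ρ.ker) (Quotient.out y) = y := Quotient.out_eq' y
      change (QuotientGroup.mk' ρ.ker) (Quotient.out y) ∈ S
      rw [h2]
      exact hy
    · intro hx
      exact ⟨x, hx, Quotient.out_eq' x⟩
  rw [← h1] at hγ
  obtain ⟨δ, hδ, rfl⟩ := hγ
  exact ⟨δ, hδ, rfl⟩

end Pool.Agent.K9h91.PA
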