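import Pool.Agent.K9h91.PA.Base
import Pool.Agent.H922R2.K14
import Pool.Agent.Helper270.Tree

/-!
# Finitely generated groups of automorphisms of the plane with many semi-invariants have bounded degree
-/

set_option autoImplicit false

namespace Pool.Agent.K9h91.PA

open MvPolynomial Pool.Agent.H922R2 Pool.Agent.Helper705_SA Pool.Agent.Helper270.Tree

variable {k : Type} [Field k] [CharZero k]

/-- the elements of the stabilizer of a vertex have bounded degree -/
theorem stab_dg (d : ℕ) (x : (↥(GD k d) ⧸ AA k d) ⊕ (↥(GD k d) ⧸ EE k d)) :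
    ∃ c, ∀ g : ↥(GD k d), g • x = x → dg (g : GA k) ≤ c := by
  rcases x with x | x
  · induction x using QuotientGroup.induction_on with
    | H t =>
      refine ⟨dg (t : GA k) * 1 * dg (t : GA k)⁻¹, fun g hg => ?_⟩
      have h1 : (QuotientGroup.mk (g * t) : ↥(GD k d) ⧸ AA k d) = QuotientGroup.mk t :=
        Sum.inl_injective hg
      have h2 := QuotientGroup.eq.1 h1.symm
      have h3 : (t : GA k)⁻¹ * ((g : GA k) * (t : GA k)) ∈ AG k := h2
      exact conj_bound (dg_AG h3)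
  · induction x using QuotientGroup.induction_on with
    | H t =>
      refine ⟨dg (t : GA k) * (d + 1) * dg (t : GA k)⁻¹, fun g hg => ?_⟩
      have h1 : (QuotientGroup.mk (g * t) : ↥(GD k d) ⧸ EE k d) = QuotientGroup.mk t :=
        Sum.inr_injective hg
      have h2 := QuotientGroup.eq.1 h1.symm
      have h3 : (t : GA k)⁻¹ * ((g : GA k) * (t : GA k)) ∈ ED k d := h2
      exact conj_bound (dg_ED h3)

/-- an element with a power which has a non-constant semi-invariant fixes a vertex -/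
theorem fixes_of_semi {d : ℕ} (g : ↥(GD k d)) {N : ℕ} (hN : 0 < N) {c : MvPolynomial (Fin 2) k}
    (hc : ∀ a, c ≠ C a) {l : k} (hl : ((g : GA k) ^ N) c = C l * c) :
    ∃ v : (↥(GD k d) ⧸ AA k d) ⊕ (↥(GD k d) ⧸ EE k d), g • v = v := by
  obtain ⟨t, ht⟩ := cycGoal (AA k d) (EE k d) (isAmalgam d).1 g
  rcases ht with h1 | h1 | ⟨L, hL, hL1, hL2⟩
  · refine ⟨Sum.inl (QuotientGroup.mk t), ?_⟩
    change Sum.inl (QuotientGroup.mk (g * t)) = _
    congr 1
    rw [eq_comm, QuotientGroup.eq, ← mul_assoc]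
    exact h1
  · refine ⟨Sum.inr (QuotientGroup.mk t), ?_⟩
    change Sum.inr (QuotientGroup.mk (g * t)) = _
    congr 1
    rw [eq_comm, QuotientGroup.eq, ← mul_assoc]
    exact h1
  · exfalso
    obtain ⟨φ, hφ⟩ : ∃ φ : GA k, φ = (t : GA k)⁻¹ * g * t := ⟨_, rfl⟩
    obtain ⟨D, hD, hD1, hD2⟩ := St_list (L.map (fun p => ((p.1 : GA k), (p.2 : GA k))))
      (by simpa using hL) (by
        intro p hp
        rw [List.mem_map] at hp
        obtain ⟨q, hq, rfl⟩ := hp
        obtain ⟨h2, h3, h4, h5⟩ := hL1 q hq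
        refine ⟨h2, fun h => h3 ?_, h4.1, h5⟩
        exact mem_ED_of h2 h)
    have hprod : ((L.map (fun p => ((p.1 : GA k), (p.2 : GA k)))).map (fun p => p.1 * p.2)).prod =
        φ := by
      have h2 := congrArg (Subgroup.subtype (GD k d)) hL2
      rw [map_list_prod, List.map_map] at h2
      rw [hφ, List.map_map]
      exact h2.symm
    rw [hprod] at hD1 hD2
    have hdeg := St_pow hD hD1 hD2
    have hDN : 2 ≤ D ^ N := hD.trans (Nat.le_self_pow (by omega) D)
    refine no_semiinv (φ := φ ^ N) hDN (fun n => ?_) (c := (t : GA k)⁻¹ c) (fun a ha => ?_) (l := l) ?_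
    · rw [← pow_mul, ← pow_mul]
      exact hdeg (N * n)
    · apply hc a
      have h2 : (t : GA k) ((t : GA k)⁻¹ c) = (t : GA k) (C a) := by rw [ha]
      have h3 : (t : GA k) ((t : GA k)⁻¹ c) = c := (t : GA k).apply_symm_apply c
      rw [← h3, h2]
      exact (t : GA k).commutes a
    · have h2 : φ ^ N = (t : GA k)⁻¹ * (g : GA k) ^ N * t := by
        rw [hφ]
        have := conj_pow (i := N) (a := (t : GA k)⁻¹) (b := (g : GA k))
        rwa [inv_inv] at this
      rw [h2]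
      change (t : GA k)⁻¹ (((g : GA k) ^ N) ((t : GA k) ((t : GA k)⁻¹ c))) = _
      have h3 : (t : GA k) ((t : GA k)⁻¹ c) = c := (t : GA k).apply_symm_apply c
      rw [h3, hl, map_mul]
      congr 1
      exact ((t : GA k)⁻¹).commutes l

/-- **Bounded degree.** A finitely generated group of automorphisms of the plane such that a power of
each element has a non-constant semi-invariant has bounded degree. -/
theorem bounded_of_semi' [IsAlgClosed k] {Γ : Type} [Group Γ] (ρ : Γ →* GA k) (S : Finset Γ)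
    (hS : Subgroup.closure (S : Set Γ) = ⊤)
    (h : ∀ γ : Γ, ∃ (N : ℕ) (c : MvPolynomial (Fin 2) k) (l : k), 0 < N ∧ (∀ a, c ≠ C a) ∧
      ((ρ γ) ^ N) c = C l * c) : ∃ m, ∀ γ, dg (ρ γ) ≤ m := by
  classical
  choose D hD using fun γ => mem_GD (ρ γ)
  obtain ⟨d, hd⟩ : ∃ d, ∀ γ ∈ S, D γ ≤ d := ⟨S.sup D, fun γ hγ => Finset.le_sup hγ⟩
  have hmem : ∀ γ, ρ γ ∈ GD k d := by
    have h1 : Subgroup.closure (S : Set Γ) ≤ (GD k d).comap ρ := by
      rw [Subgroup.closure_le]
      intro γ hγ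
      exact GD_mono (hd γ hγ) (hD γ)
    rw [hS] at h1
    exact fun γ => h1 (Subgroup.mem_top γ)
  let σ : Γ →* ↥(GD k d) := ρ.codRestrict (GD k d) hmem
  let _ : MulAction Γ ((↥(GD k d) ⧸ AA k d) ⊕ (↥(GD k d) ⧸ EE k d)) := MulAction.compHom _ σ
  have hact : ∀ (γ : Γ) (x : (↥(GD k d) ⧸ AA k d) ⊕ (↥(GD k d) ⧸ EE k d)), γ • x = σ γ • x :=
    fun _ _ => rfl
  have hTA : TreeAct Γ (cosetGraph (AA k d) (EE k d)) := by
    refine ⟨cosetGraph_isTree _ _ (isAmalgam d), fun γ x y hxy => ?_, fun γ x y hxy => ?_⟩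
    · rw [hact, hact]
      exact coset_act _ _ _ _ _ hxy
    · rintro ⟨h1, -⟩
      rw [hact] at h1
      obtain ⟨r, ⟨rfl, rfl⟩ | ⟨rfl, rfl⟩⟩ := hxy
      · cases h1
      · cases h1
  obtain ⟨x, hx⟩ := hTA.serre (fun γ => by
    obtain ⟨N, c, l, hN, hc, hl⟩ := h γ
    exact fixes_of_semi (σ γ) hN hc hl) S
  obtain ⟨c, hc⟩ := stab_dg d x
  refine ⟨c, fun γ => hc (σ γ) ?_⟩
  have h1 : Subgroup.closure (S : Set Γ) ≤ MulAction.stabilizer Γ x := by
    rw [Subgroup.closure_le]
    intro a ha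
    exact hx a ha
  rw [hS] at h1
  exact h1 (Subgroup.mem_top γ)

theorem bounded_of_semi {K : Type} [Field K] [CharZero K] {Γ : Type} [Group Γ] (ρ : Γ →* GA K)
    (S : Finset Γ) (hS : Subgroup.closure (S : Set Γ) = ⊤)
    (h : ∀ γ : Γ, ∃ (N : ℕ) (c : MvPolynomial (Fin 2) K) (l : K), 0 < N ∧ (∀ a, c ≠ C a) ∧
      ((ρ γ) ^ N) c = C l * c) : ∃ m, ∀ γ, dg (ρ γ) ≤ m := by
  have : CharZero (AlgebraicClosure K) := charZero_of_injective_algebraMap
    (algebraMap K (AlgebraicClosure K)).injective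
  obtain ⟨m, hm⟩ := bounded_of_semi' (k := AlgebraicClosure K) ((bc K (AlgebraicClosure K)).comp ρ)
    S hS (fun γ => by
      obtain ⟨N, c, l, hN, hc, hl⟩ := h γ
      refine ⟨N, inc K _ c, algebraMap K _ l, hN, fun a ha => ?_, ?_⟩
      · have h1 := congrArg totalDegree ha
        rw [td_inc, totalDegree_C, totalDegree_eq_zero_iff_eq_C] at h1
        exact hc _ h1
      · have h1 : ((bc K (AlgebraicClosure K)).comp ρ γ) ^ N =
            bc K (AlgebraicClosure K) ((ρ γ) ^ N) := by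
          rw [map_pow]
          rfl
        rw [h1]
        change bch (AlgebraicClosure K) ((ρ γ) ^ N).toAlgHom (inc K _ c) = _
        rw [bch_inc]
        change inc K _ (((ρ γ) ^ N) c) = _
        rw [hl, map_mul, map_C])
  refine ⟨m, fun γ => ?_⟩
  rw [← dg_bc (L := AlgebraicClosure K)]
  exact hm γ

end Pool.Agent.K9h91.PA
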