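import Pool.Agent.K9h91.PA.Over

/-!
# Towers over the plane, general form
-/

set_option autoImplicit false

namespace Pool.Agent.K9h91.PA

open MvPolynomial Matrix Pool.Agent.Y110.FJ Pool.Agent.Y462.SS

theorem finOrb_of_fixed {K R Γ : Type} [Field K] [CommRing R] [Algebra K R] [Group Γ]
    (ρ : Γ →* (R ≃ₐ[K] R)) (I : Ideal R) (hI : I ≠ ⊤) (hfin : Module.Finite K (R ⧸ I))
    (h : ∀ γ, I.map (ρ γ : R →+* R) = I) : FinOrb ρ := by
  intro S _
  refine ⟨I, hI, hfin, (Set.finite_singleton I).subset ?_⟩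
  rintro J ⟨γ, -, rfl⟩
  exact h γ

/-- **Towers over the plane.** -/
theorem tower_good {K Γ : Type} [Field K] [CharZero K] [Group Γ]
    {C : ∀ (G : Type) [Group G], Prop} (hC : ClosedE C) (hGL : ∀ n : ℕ, C (GL (Fin n) K)) (n : ℕ)
    (ρ : Γ →* (MvPolynomial (Fin (n + 2)) K ≃ₐ[K] MvPolynomial (Fin (n + 2)) K))
    (hρ : Function.Injective ρ) (hflag : Flag n ρ)
    (h : Good (rename (Fin.natAdd n)) ρ) : C Γ := by
  classical
  refine Pool.Agent.Y430.SS.of_directed hC.base Γ (Finset Γ) (fun i j => ?_)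
    (fun s => Subgroup.closure (s : Set Γ))
    (fun s t h => Subgroup.closure_mono (by exact_mod_cast h))
    (fun g => ⟨{g}, Subgroup.subset_closure (by simp)⟩) (fun S => ?_)
  · exact ⟨i ∪ j, Finset.subset_union_left, Finset.subset_union_right⟩
  show C ↥(Subgroup.closure (S : Set Γ))
  obtain ⟨Δ, hΔ⟩ : ∃ Δ : Subgroup Γ, Δ = Subgroup.closure (S : Set Γ) := ⟨_, rfl⟩
  have hS := h S S.finite_toSet
  rw [← hΔ] at hS ⊢
  have hρ' : Function.Injective (ρ.comp Δ.subtype) := hρ.comp (Subgroup.subtype_injective _)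
  rcases hS with hS | ⟨I, hI, hcase, horb⟩
  · refine locFin_linear hC.base hGL (ρ.comp Δ.subtype) hρ' fun r => ?_
    have h1 : {s : MvPolynomial (Fin (n + 2)) K | ∃ γ : Δ, s = (ρ.comp Δ.subtype) γ r} =
        {s : MvPolynomial (Fin (n + 2)) K | ∃ γ ∈ Δ, s = ρ γ r} := by
      ext s
      constructor
      · rintro ⟨γ, rfl⟩
        exact ⟨γ, γ.2, rfl⟩
      · rintro ⟨γ, hγ, rfl⟩
        exact ⟨⟨γ, hγ⟩, rfl⟩
    rw [h1]
    exact hS r
  let _ : MulAction ↥Δ (Ideal (MvPolynomial (Fin (n + 2)) K)) := actI (ρ.comp Δ.subtype)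
  have h1 : (MulAction.orbit ↥Δ I).Finite := by
    refine horb.subset ?_
    rintro _ ⟨γ, rfl⟩
    exact ⟨γ, γ.2, rfl⟩
  rcases hcase with hfin | ⟨hsurj, hI0⟩
  · have h2 : (MulAction.stabilizer ↥Δ I).FiniteIndex := by
      constructor
      rw [MulAction.index_stabilizer]
      have h3 := (Set.ncard_pos h1).2 ⟨I, MulAction.mem_orbit_self I⟩
      omega
    refine hC.base.finiteIndex _ _ h2 ?_
    refine tower hC hGL n _ ((ρ.comp Δ.subtype).comp (MulAction.stabilizer ↥Δ I).subtype)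
      (hρ'.comp (Subgroup.subtype_injective _)) (fun γ => hflag γ) ?_
    refine finOrb_of_fixed _ I hI hfin fun γ => ?_
    exact γ.2
  · -- the case of the plane
    have hn : n = 0 := by
      by_contra hn
      have hn' : 0 < n + 2 := by omega
      obtain ⟨p, hp⟩ := hsurj (X ⟨0, hn'⟩)
      have h2 := congrArg vars hp
      rw [vars_X] at h2
      have h3 : (⟨0, hn'⟩ : Fin (n + 2)) ∈ (rename (Fin.natAdd n) p).vars := by
        rw [h2]
        exact Finset.mem_singleton_self _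
      have h4 := vars_rename (Fin.natAdd n) p h3
      rw [Finset.mem_image] at h4
      obtain ⟨i, -, hi⟩ := h4
      have h5 := congrArg Fin.val hi
      simp at h5
      omega
    subst hn
    refine plane_inv hC hGL (ρ.comp Δ.subtype) hρ' fun T _ => Or.inr ⟨I, hI0, hI, ?_⟩
    refine h1.subset ?_
    rintro _ ⟨γ, -, rfl⟩
    exact ⟨γ, rfl⟩

end Pool.Agent.K9h91.PA
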