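import Pool.Agent.Helper705_SA.Amalg

/-!
# A criterion for amalgams

If `G` is generated by two subgroups and no alternating word of length at least two is trivial, then
`G` is the amalgam of the two subgroups.
-/

set_option autoImplicit false

namespace Pool.Agent.K9h91.PA

open Pool.Agent.Helper705_SA

section Words

variable {G : Type} [Group G] (A B : Subgroup G)

/-- two elements such that neither subgroup contains both -/
def Alt (x y : G) : Prop := ¬ (x ∈ A ∧ y ∈ A) ∧ ¬ (x ∈ B ∧ y ∈ B)

open Classical in
/-- the function given by two homomorphisms -/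
noncomputable def th {K : Type} [Group K] (f : A →* K) (g : B →* K) (x : G) : K :=
  if h : x ∈ A then f ⟨x, h⟩ else if h : x ∈ B then g ⟨x, h⟩ else 1

variable {A B} {K : Type} [Group K] {f : A →* K} {g : B →* K}

theorem th_A {x : G} (h : x ∈ A) : th A B f g x = f ⟨x, h⟩ := by
  unfold th
  rw [dif_pos h]

theorem th_B (hfg : ∀ x (hA : x ∈ A) (hB : x ∈ B), f ⟨x, hA⟩ = g ⟨x, hB⟩) {x : G} (h : x ∈ B) :
    th A B f g x = g ⟨x, h⟩ := by
  unfold th
  by_cases hA : x ∈ A
  · rw [dif_pos hA]
    exact hfg x hA h
  · rw [dif_neg hA, dif_pos h]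

theorem th_mul (hfg : ∀ x (hA : x ∈ A) (hB : x ∈ B), f ⟨x, hA⟩ = g ⟨x, hB⟩) {x y : G}
    (h : (x ∈ A ∧ y ∈ A) ∨ (x ∈ B ∧ y ∈ B)) :
    th A B f g (x * y) = th A B f g x * th A B f g y := by
  rcases h with ⟨h1, h2⟩ | ⟨h1, h2⟩
  · rw [th_A h1, th_A h2, th_A (A.mul_mem h1 h2), ← map_mul]
    rfl
  · rw [th_B hfg h1, th_B hfg h2, th_B hfg (B.mul_mem h1 h2), ← map_mul]
    rfl

theorem th_inv (hfg : ∀ x (hA : x ∈ A) (hB : x ∈ B), f ⟨x, hA⟩ = g ⟨x, hB⟩) {x : G}
    (h : x ∈ A ∨ x ∈ B) : th A B f g x⁻¹ = (th A B f g x)⁻¹ := by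
  rcases h with h1 | h1
  · rw [th_A h1, th_A (A.inv_mem h1), ← map_inv]
    rfl
  · rw [th_B hfg h1, th_B hfg (B.inv_mem h1), ← map_inv]
    rfl

/-- a list is alternating, or two adjacent letters can be combined -/
theorem chain_or (L : List G) : L.IsChain (Alt A B) ∨
    ∃ (L1 : List G) (x y : G) (L2 : List G), L = L1 ++ x :: y :: L2 ∧
      ((x ∈ A ∧ y ∈ A) ∨ (x ∈ B ∧ y ∈ B)) := by
  induction L with
  | nil => left; exact List.IsChain.nil
  | cons x L ih =>
    rcases ih with ih | ⟨L1, a, b, L2, h1, h2⟩
    · cases L with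
      | nil => left; exact List.IsChain.singleton _
      | cons y L =>
        by_cases h : (x ∈ A ∧ y ∈ A) ∨ (x ∈ B ∧ y ∈ B)
        · right
          exact ⟨[], x, y, L, rfl, h⟩
        · left
          rw [List.isChain_cons_cons]
          refine ⟨?_, ih⟩
          unfold Alt
          tauto
    · right
      exact ⟨x :: L1, a, b, L2, by rw [h1]; rfl, h2⟩

theorem prod_th (hfg : ∀ x (hA : x ∈ A) (hB : x ∈ B), f ⟨x, hA⟩ = g ⟨x, hB⟩)
    (hred : ∀ L : List G, 2 ≤ L.length → (∀ x ∈ L, x ∈ A ∨ x ∈ B) → L.IsChain (Alt A B) →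
      L.prod ≠ 1) :
    ∀ (n : ℕ) (L : List G), L.length = n → (∀ x ∈ L, x ∈ A ∨ x ∈ B) → L.prod = 1 →
      (L.map (th A B f g)).prod = 1 := by
  intro n
  induction n using Nat.strong_induction_on with
  | _ n ih =>
    intro L hn hL h1
    rcases chain_or (A := A) (B := B) L with h | ⟨L1, x, y, L2, h2, h3⟩
    · by_cases h2 : 2 ≤ L.length
      · exact absurd h1 (hred L h2 hL h)
      · cases L with
        | nil => rfl
        | cons x L =>
          cases L with
          | nil =>
            simp only [List.prod_cons, List.prod_nil, mul_one] at h1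
            subst h1
            simp only [List.map_cons, List.map_nil, List.prod_cons, List.prod_nil, mul_one]
            rw [th_A A.one_mem]
            exact map_one f
          | cons y L =>
            simp at h2
    · subst h2
      have h4 := ih (n - 1) (by
        rw [← hn]
        simp) (L1 ++ (x * y) :: L2) (by
          rw [← hn]
          simp) (by
          intro z hz
          rw [List.mem_append, List.mem_cons] at hz
          rcases hz with hz | hz | hz
          · exact hL z (by simp [hz])
          · rw [hz]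
            rcases h3 with h3 | h3
            · exact Or.inl (A.mul_mem h3.1 h3.2)
            · exact Or.inr (B.mul_mem h3.1 h3.2)
          · exact hL z (by simp [hz])) (by
          rw [← h1]
          simp [mul_assoc])
      rw [← h4]
      simp only [List.map_append, List.map_cons, List.prod_append, List.prod_cons]
      rw [th_mul hfg h3]
      simp [mul_assoc]

theorem exists_list (hgen : A ⊔ B = ⊤) (x : G) :
    ∃ L : List G, (∀ y ∈ L, y ∈ A ∨ y ∈ B) ∧ L.prod = x := by
  have hx : x ∈ A ⊔ B := by rw [hgen]; exact Subgroup.mem_top x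
  rw [← Subgroup.closure_eq A, ← Subgroup.closure_eq B, ← Subgroup.closure_union] at hx
  induction hx using Subgroup.closure_induction with
  | mem x hx => exact ⟨[x], by simpa using hx, by simp⟩
  | one => exact ⟨[], by simp, rfl⟩
  | mul x y _ _ hx hy =>
    obtain ⟨L, h1, h2⟩ := hx
    obtain ⟨L', h1', h2'⟩ := hy
    refine ⟨L ++ L', fun z hz => ?_, by rw [List.prod_append, h2, h2']⟩
    rw [List.mem_append] at hz
    rcases hz with hz | hz
    · exact h1 z hz
    · exact h1' z hz
  | inv x _ hx =>
    obtain ⟨L, h1, h2⟩ := hx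
    refine ⟨(L.map (fun y => y⁻¹)).reverse, fun z hz => ?_, ?_⟩
    · rw [List.mem_reverse, List.mem_map] at hz
      obtain ⟨y, hy, rfl⟩ := hz
      rcases h1 y hy with h | h
      · exact Or.inl (A.inv_mem h)
      · exact Or.inr (B.inv_mem h)
    · rw [← h2, List.prod_inv_reverse]

/-- **the criterion** -/
theorem isAmalgam_of_words (hgen : A ⊔ B = ⊤)
    (hred : ∀ L : List G, 2 ≤ L.length → (∀ x ∈ L, x ∈ A ∨ x ∈ B) → L.IsChain (Alt A B) →
      L.prod ≠ 1) : IsAmalgam A B := by
  refine ⟨hgen, fun K _ f g hfg => ?_⟩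
  choose W hW1 hW2 using exists_list (A := A) (B := B) hgen
  have key : ∀ L : List G, (∀ x ∈ L, x ∈ A ∨ x ∈ B) →
      (L.map (th A B f g)).prod = ((W L.prod).map (th A B f g)).prod := by
    intro L hL
    have h1 := prod_th hfg hred _ (L ++ ((W L.prod).map (fun y => y⁻¹)).reverse) rfl (by
      intro z hz
      rw [List.mem_append] at hz
      rcases hz with hz | hz
      · exact hL z hz
      · rw [List.mem_reverse, List.mem_map] at hz
        obtain ⟨y, hy, rfl⟩ := hz
        rcases hW1 _ y hy with h | h
        · exact Or.inl (A.inv_mem h)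
        · exact Or.inr (B.inv_mem h)) (by
      rw [List.prod_append, ← List.prod_inv_reverse, hW2, mul_inv_cancel])
    rw [List.map_append, List.prod_append, List.map_reverse, List.map_map] at h1
    have h2 : (W L.prod).map (th A B f g ∘ fun y => y⁻¹) =
        ((W L.prod).map (th A B f g)).map (fun y => y⁻¹) := by
      rw [List.map_map]
      apply List.map_congr_left
      intro y hy
      exact th_inv hfg (hW1 _ y hy)
    rw [h2, ← List.prod_inv_reverse] at h1
    exact mul_inv_eq_one.1 h1
  refine ⟨MonoidHom.mk' (fun x => ((W x).map (th A B f g)).prod) ?_, ?_, ?_⟩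
  · intro x y
    have h1 := key (W x ++ W y) (by
      intro z hz
      rw [List.mem_append] at hz
      rcases hz with hz | hz
      · exact hW1 _ z hz
      · exact hW1 _ z hz)
    rw [List.prod_append, hW2, hW2, List.map_append, List.prod_append] at h1
    exact h1.symm
  · intro a
    have h1 := key [(a : G)] (by simp)
    simp only [List.map_cons, List.map_nil, List.prod_cons, List.prod_nil, mul_one] at h1
    change ((W (a : G)).map (th A B f g)).prod = f a
    rw [← h1, th_A a.2]
  · intro b
    have h1 := key [(b : G)] (by simp)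
    simp only [List.map_cons, List.map_nil, List.prod_cons, List.prod_nil, mul_one] at h1
    change ((W (b : G)).map (th A B f g)).prod = g b
    rw [← h1, th_B hfg b.2]

end Words

end Pool.Agent.K9h91.PA
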